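import Pool.Agent.H29.CWA.Phi

/-!
# MP_c830f0_an, ARC-4: totally ordered continua are arcs (note 2967, A7, second half)

`arc_of_total`: `φ` of `exists_phi` is injective and continuous on the compact set `L`, its image is the interval `Icc (φ a) (φ b)`, `b` a point of `L`
where `φ` is largest; the inverse of `φ` on the interval is continuous and is reparametrised by `[0,1]`.
`Iv_arc`: `L = Iv K a x`; the point `b` is `x` by `Iv_cut`.
-/

set_option autoImplicit false

namespace Pool.Agent.H29.CWA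

open Set Filter Topology Metric
open Pool.Agent.H61.PO (IsArc Surf)

variable {X : Type*} [MetricSpace X] {K L : Set X} {a x : X}

/-- a compact set on which a real function is continuous and injective with image an interval is
an arc -/
theorem arc_of_injOn {φ : X → ℝ} (hc : IsCompact L) (hφ : ContinuousOn φ L) (hi : InjOn φ L)
    {b : X} (ha : a ∈ L) (hb : b ∈ L) (hlt : φ a < φ b) (him : φ '' L = Icc (φ a) (φ b)) :
    IsArc L a b := by
  have : CompactSpace L := isCompact_iff_compactSpace.mp hc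
  have hcont : Continuous (domRestrict L φ) := continuousOn_iff_continuous_domRestrict.mp hφ
  have hinj : Function.Injective (domRestrict L φ) := injOn_iff_injective.mp hi
  have hemb : IsEmbedding (domRestrict L φ) := (hcont.isClosedEmbedding hinj).isEmbedding
  have hd : 0 < φ b - φ a := sub_pos.mpr hlt
  have hr : range (domRestrict L φ) = Icc (φ a) (φ b) := by rw [Set.range_domRestrict, him]
  have hmem : ∀ t : Icc (0:ℝ) 1, φ a + (t:ℝ) * (φ b - φ a) ∈ range (domRestrict L φ) := by
    intro t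
    rw [hr]
    have h0 := t.2.1
    have h1 := t.2.2
    constructor
    · nlinarith
    · nlinarith
  set e := hemb.toHomeomorph with he
  set g : Icc (0:ℝ) 1 → X :=
    fun t => ((e.symm ⟨φ a + (t:ℝ) * (φ b - φ a), hmem t⟩ : L) : X) with hg
  have hgc : Continuous g := by
    apply continuous_subtype_val.comp
    apply e.symm.continuous.comp
    exact Continuous.subtype_mk (by fun_prop) _
  have hgL : ∀ t, g t ∈ L := fun t => Subtype.coe_prop _
  have hφg : ∀ t : Icc (0:ℝ) 1, φ (g t) = φ a + (t:ℝ) * (φ b - φ a) := by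
    intro t
    have h := e.apply_symm_apply ⟨φ a + (t:ℝ) * (φ b - φ a), hmem t⟩
    exact congrArg Subtype.val h
  refine ⟨IccExtend zero_le_one g, (hgc.Icc_extend' ).continuousOn, ?_, ?_, ?_, ?_⟩
  · intro s hs t ht hst
    rw [IccExtend_of_mem _ _ hs, IccExtend_of_mem _ _ ht] at hst
    have h := congrArg φ hst
    rw [hφg, hφg] at h
    have h2 : s * (φ b - φ a) = t * (φ b - φ a) := by simpa using h
    exact mul_right_cancel₀ hd.ne' h2
  · ext z
    constructor
    · intro hz
      have hz1 : φ z ∈ Icc (φ a) (φ b) := by rw [← him]; exact mem_image_of_mem _ hz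
      have ht : (φ z - φ a) / (φ b - φ a) ∈ Icc (0:ℝ) 1 := by
        constructor
        · exact div_nonneg (sub_nonneg.mpr hz1.1) hd.le
        · rw [div_le_one hd]
          linarith [hz1.2]
      refine ⟨_, ht, ?_⟩
      rw [IccExtend_of_mem _ _ ht]
      apply hi (hgL _) hz
      rw [hφg]
      simp only
      rw [div_mul_cancel₀ _ hd.ne']
      ring
    · rintro ⟨t, ht, rfl⟩
      rw [IccExtend_of_mem _ _ ht]
      exact hgL _
  · have h0 : (0:ℝ) ∈ Icc (0:ℝ) 1 := ⟨le_rfl, zero_le_one⟩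
    rw [IccExtend_of_mem _ _ h0]
    apply hi (hgL _) ha
    rw [hφg]
    simp
  · have h1 : (1:ℝ) ∈ Icc (0:ℝ) 1 := ⟨zero_le_one, le_rfl⟩
    rw [IccExtend_of_mem _ _ h1]
    apply hi (hgL _) hb
    rw [hφg]
    simp

theorem arc_of_total (hK : Den K) (hL : L ⊆ K) (hc : Cont L) (ha : a ∈ L) (hn : L.Nontrivial)
    (ht : ∀ y ∈ L, ∀ z ∈ L, y ∈ Iv K a z ∨ z ∈ Iv K a y) :
    ∃ b, IsArc L a b ∧ ∀ z ∈ L, z ∈ Iv K a b := by
  obtain ⟨φ, hφc, hφ⟩ := exists_phi hK (hL ha)
  have hcomp : IsCompact L := hK.compact.of_isClosed_subset hc.1 hL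
  have hφL : ContinuousOn φ L := hφc.mono hL
  have hi : InjOn φ L := by
    intro y hy z hz hyz
    by_contra hne
    rcases ht y hy z hz with h | h
    · exact absurd hyz (hφ y (hL hy) z (hL hz) h hne).ne
    · exact absurd hyz (hφ z (hL hz) y (hL hy) h (Ne.symm hne)).ne'
  obtain ⟨b, hb, hmax⟩ := hcomp.exists_isMaxOn ⟨a, ha⟩ hφL
  have hmin : ∀ z ∈ L, φ a ≤ φ z := by
    intro z hz
    by_cases h : a = z
    · rw [h]
    · exact (hφ a (hL ha) z (hL hz) left_mem_Iv h).le
  have hlt : φ a < φ b := by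
    obtain ⟨z, hz, hza⟩ := hn.exists_ne a
    exact (hφ a (hL ha) z (hL hz) left_mem_Iv (Ne.symm hza)).trans_le (hmax hz)
  have him : φ '' L = Icc (φ a) (φ b) := by
    apply Subset.antisymm
    · rintro _ ⟨z, hz, rfl⟩
      exact ⟨hmin z hz, hmax hz⟩
    · exact (hc.2.image φ hφL).Icc_subset (mem_image_of_mem _ ha) (mem_image_of_mem _ hb)
  refine ⟨b, arc_of_injOn hcomp hφL hi ha hb hlt him, ?_⟩
  intro z hz
  by_cases h : b = z
  · rw [← h]
    exact right_mem_Iv
  · rcases ht z hz b hb with h1 | h1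
    · exact h1
    · exact absurd (hφ b (hL hb) z (hL hz) h1 h) (not_lt.mpr (hmax hz))

theorem Iv_arc (hK : Den K) (ha : a ∈ K) (hx : x ∈ K) (hne : a ≠ x) : IsArc (Iv K a x) a x := by
  have hsub := Iv_sub hK ha hx
  obtain ⟨b, hb, hall⟩ := arc_of_total (L := Iv K a x) (a := a) hK hsub (Iv_cont hK ha hx)
    left_mem_Iv ⟨a, left_mem_Iv, x, right_mem_Iv, hne⟩
    (fun y hy z hz => Iv_total hK ha hx hy hz)
  have hbx : b = x := by
    by_contra hbne
    have hbm : b ∈ Iv K a x := by
      obtain ⟨α, _, _, hσ, _, h1⟩ := hb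
      rw [hσ]
      exact ⟨1, ⟨zero_le_one, le_rfl⟩, h1⟩
    exact Iv_cut hK ha hx hbm hbne (hall x right_mem_Iv)
  rw [hbx] at hb
  exact hb

end Pool.Agent.H29.CWA
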