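import Pool.Agent.H29.CWA.Defs

/-!
# MP_c830f0_an, ARC-6: boundary bumping

`bump`: `C` = the component of `y` in `K ∩ closedBall y η` (`connectedComponentIn`), closed.  If `C = {y}`: in the compact Hausdorff space `K ∩ closedBall y η` the component is
the intersection of the clopen sets with `y` (`connectedComponent_eq_iInter_isClopen`), so some clopen `Z ∋ y` is contained in `ball y (η / 2)` (compactness), and misses
some point of `K`(make it smaller than the distance of `y` to another point of `K`); `Z` is clopen in `K` (it is closed, and open because it is contained in the open ball): contradiction to `hp`.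
-/

set_option autoImplicit false

namespace Pool.Agent.H29.CWA

open Set Filter Topology Metric

variable {X : Type*} [MetricSpace X]

theorem bump {K : Set X} (hK : IsCompact K) (hp : IsPreconnected K) {y : X} (hy : y ∈ K)
    (hn : K.Nontrivial) {η : ℝ} (hη : 0 < η) :
    ∃ C : Set X, C ⊆ K ∧ Cont C ∧ y ∈ C ∧ C.Nontrivial ∧ ∀ z ∈ C, dist z y ≤ η := by
  obtain ⟨y', hy', hne⟩ := hn.exists_ne y
  have hBc : IsCompact (K ∩ closedBall y η) := hK.inter_right isClosed_closedBall
  have hyB : y ∈ K ∩ closedBall y η := ⟨hy, mem_closedBall_self hη.le⟩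
  have hCs : connectedComponentIn (K ∩ closedBall y η) y ⊆ K ∩ closedBall y η :=
    connectedComponentIn_subset _ _
  have hCp : IsPreconnected (connectedComponentIn (K ∩ closedBall y η) y) :=
    isPreconnected_connectedComponentIn
  have hyC : y ∈ connectedComponentIn (K ∩ closedBall y η) y := mem_connectedComponentIn hyB
  have hCc : IsClosed (connectedComponentIn (K ∩ closedBall y η) y) := by
    have h1 : closure (connectedComponentIn (K ∩ closedBall y η) y) ⊆
        connectedComponentIn (K ∩ closedBall y η) y :=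
      hCp.closure.subset_connectedComponentIn (subset_closure hyC)
        (closure_minimal hCs hBc.isClosed)
    exact closure_subset_iff_isClosed.1 h1
  refine ⟨connectedComponentIn (K ∩ closedBall y η) y, hCs.trans inter_subset_left,
    ⟨hCc, hCp⟩, hyC, ?_, fun z hz => (hCs hz).2⟩
  by_contra hnt
  rw [not_nontrivial_iff] at hnt
  have hC1 : connectedComponentIn (K ∩ closedBall y η) y = {y} :=
    Subset.antisymm (fun z hz => hnt hz hyC) (singleton_subset_iff.2 hyC)
  have hcs : CompactSpace ↥(K ∩ closedBall y η) := isCompact_iff_compactSpace.1 hBc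
  have hcomp : connectedComponent (⟨y, hyB⟩ : ↥(K ∩ closedBall y η)) = {⟨y, hyB⟩} := by
    rw [connectedComponentIn_eq_image hyB] at hC1
    refine Subset.antisymm (fun w hw => ?_) (singleton_subset_iff.2 mem_connectedComponent)
    have h2 : (w : X) ∈ (Subtype.val '' connectedComponent
        (⟨y, hyB⟩ : ↥(K ∩ closedBall y η)) : Set X) := ⟨w, hw, rfl⟩
    rw [hC1] at h2
    exact Subtype.ext h2
  rw [connectedComponent_eq_iInter_isClopen] at hcomp
  have hrpos : 0 < min η (dist y' y) := lt_min hη (dist_pos.2 hne)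
  obtain ⟨⟨V, hVc, hyV⟩, hVU⟩ : ∃ s : {s : Set ↥(K ∩ closedBall y η) //
      IsClopen s ∧ (⟨y, hyB⟩ : ↥(K ∩ closedBall y η)) ∈ s},
      s.1 ⊆ {w : ↥(K ∩ closedBall y η) | dist (w : X) y < min η (dist y' y)} := by
    have hne0 : Nonempty {s : Set ↥(K ∩ closedBall y η) //
        IsClopen s ∧ (⟨y, hyB⟩ : ↥(K ∩ closedBall y η)) ∈ s} :=
      ⟨⟨univ, isClopen_univ, mem_univ _⟩⟩
    refine exists_subset_nhds_of_compactSpace ?_ (fun s => s.2.1.1) ?_
    · rintro ⟨s, hs, hxs⟩ ⟨t, ht, hxt⟩
      exact ⟨⟨s ∩ t, hs.inter ht, ⟨hxs, hxt⟩⟩, inter_subset_left, inter_subset_right⟩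
    · intro w hw
      rw [hcomp, mem_singleton_iff] at hw
      rw [hw]
      refine IsOpen.mem_nhds ?_ ?_
      · exact isOpen_lt (continuous_subtype_val.dist continuous_const) continuous_const
      · show dist y y < min η (dist y' y)
        rw [dist_self]
        exact hrpos
  obtain ⟨O, hO, hOV⟩ := isOpen_induced_iff.1 hVc.2
  have hZcl : IsClosed (Subtype.val '' V : Set X) :=
    (hVc.1.isCompact.image continuous_subtype_val).isClosed
  have hZK : ∀ z, z ∈ K → z ∈ O ∩ ball y η → z ∈ (Subtype.val '' V : Set X) := by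
    intro z hzK hzO
    have hzB : z ∈ K ∩ closedBall y η := ⟨hzK, ball_subset_closedBall hzO.2⟩
    refine ⟨⟨z, hzB⟩, ?_, rfl⟩
    rw [← hOV]
    exact hzO.1
  have hsub : K ⊆ (O ∩ ball y η) ∪ (Subtype.val '' V : Set X)ᶜ := by
    intro z hz
    by_cases hzV : z ∈ (Subtype.val '' V : Set X)
    · left
      obtain ⟨w, hw, rfl⟩ := hzV
      refine ⟨?_, ?_⟩
      · rw [← hOV] at hw
        exact hw
      · have h3 : dist (w : X) y < min η (dist y' y) := hVU hw
        exact mem_ball.2 (h3.trans_le (min_le_left _ _))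
    · right
      exact hzV
  obtain ⟨z, hzK, hz1, hz2⟩ := hp (O ∩ ball y η) (Subtype.val '' V : Set X)ᶜ
    (hO.inter isOpen_ball) hZcl.isOpen_compl hsub
    ⟨y, hy, by
      refine ⟨?_, mem_ball_self hη⟩
      have h4 : (⟨y, hyB⟩ : ↥(K ∩ closedBall y η)) ∈ Subtype.val ⁻¹' O := by
        rw [hOV]
        exact hyV
      exact h4⟩
    ⟨y', hy', by
      rintro ⟨w, hw, hwy⟩
      have h3 : dist (w : X) y < min η (dist y' y) := hVU hw
      rw [hwy] at h3
      exact absurd (h3.trans_le (min_le_right _ _)) (lt_irrefl _)⟩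
  exact hz2 (hZK z hzK hz1)

end Pool.Agent.H29.CWA
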