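import Pool.Agent.H29.CWA.Iv

/-!
# MP_c830f0_an, ARC-2: separation in a dendrite (note 2967, K1-K4)

`Iv_star` (K1): `U = {z ∈ K | e ∉ Iv K x z}`, `x ≠ e`.  `U` is relatively open in `K` and `K \ {e} \ U` is relatively open in `K`: for `z ≠ e` in `K` take a small
continuum `N` from `z` to `z'` (`LC`, `ε < dist z e`), `e ∉ N`, `Iv K x z' ⊆ Iv K x z ∪ N` and conversely.  `U` is a union of `Iv K x z`, `z ∈ U`
(`Iv_mono`), all with `x`: preconnected.  `U ∪ {e}` is closed; if `e ∉ closure U`, `U` is clopen in `K`, so `U = K`: contradiction; so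
`U ∪ {e} = closure U` is preconnected; `Iv_min`.
`Iv_cut`: `y = a` is `Iv_self`; otherwise `Iv_star` with `e = y`, `x := a`: `Iv K a y ⊆ U ∪ {y}`, `x ∉ U`.
`Iv_inter`: `w ≠ y` in both: `y ∉ Iv K a w`, `y ∉ Iv K x w` (`Iv_star` for `a` and for `x`), so `y ∉ Iv K a x` (`Iv_tri`).
`Iv_total`: K4 of the note.
-/

set_option autoImplicit false

namespace Pool.Agent.H29.CWA

open Set Filter Topology Metric
open Pool.Agent.H61.PO (IsArc Surf)

variable {X : Type*} [MetricSpace X] {K : Set X} {a x y z e : X}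

theorem Cut_near (hK : Den K) (hx : x ∈ K) {z : X} (hz : z ∈ K) (hze : z ≠ e) :
    ∃ δ : ℝ, 0 < δ ∧ ∀ z' ∈ K, dist z' z < δ → (e ∈ Iv K x z ↔ e ∈ Iv K x z') := by
  have hd : 0 < dist z e := dist_pos.mpr hze
  obtain ⟨δ, hδ, h⟩ := hK.lc z hz (dist z e / 2) (by linarith)
  refine ⟨δ, hδ, fun z' hz' hd' => ?_⟩
  obtain ⟨N, hNK, hNc, hzN, hzN', hN⟩ := h z' hz' hd'
  have heN : e ∉ N := by
    intro hc
    have := hN e hc
    rw [dist_comm] at this
    linarith
  constructor
  · intro hc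
    rcases Iv_tri hK hx hz hz' hc with h1 | h1
    · exact h1
    · exact absurd (Iv_min hNK hNc hzN' hzN h1) heN
  · intro hc
    rcases Iv_tri hK hx hz' hz hc with h1 | h1
    · exact h1
    · exact absurd (Iv_min hNK hNc hzN hzN' h1) heN

theorem Iv_star (hK : Den K) (hx : x ∈ K) (he : e ∈ K) (hxe : x ≠ e) :
    ∀ z ∈ Iv K x e, z ≠ e → e ∉ Iv K x z := by
  set U : Set X := {z | z ∈ K ∧ e ∉ Iv K x z} with hU
  have hKcl : IsClosed K := hK.compact.isClosed
  have hUK : U ⊆ K := fun z hz => hz.1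
  have hxU : x ∈ U := by
    refine ⟨hx, ?_⟩
    rw [Iv_self hK hx]
    exact fun h => hxe h.symm
  have heU : e ∉ U := fun h => h.2 right_mem_Iv
  have hUpre : IsPreconnected U := by
    refine isPreconnected_of_forall x fun z hz => ⟨Iv K x z, ?_, left_mem_Iv, right_mem_Iv,
      Iv_preconn hK hx hz.1⟩
    intro w hw
    exact ⟨Iv_sub hK hx hz.1 hw, fun hc => hz.2 (Iv_mono hK hx hz.1 hw hc)⟩
  have hcl : closure U ⊆ insert e U := by
    intro z hz
    by_cases hze : z = e
    · exact Or.inl hze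
    · right
      have hzK : z ∈ K := closure_minimal hUK hKcl hz
      obtain ⟨δ, hδ, h⟩ := Cut_near hK hx hzK hze
      obtain ⟨z', hz', hd⟩ := Metric.mem_closure_iff.mp hz δ hδ
      rw [dist_comm] at hd
      exact ⟨hzK, fun hc => hz'.2 ((h z' hz'.1 hd).mp hc)⟩
  have hecl : e ∈ closure U := by
    by_contra hne
    have hUcl : IsClosed U := by
      refine isClosed_of_closure_subset fun z hz => ?_
      rcases hcl hz with h | h
      · exact absurd (h ▸ hz) hne
      · exact h
    have hVcl : IsClosed (K \ U) := by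
      refine isClosed_of_closure_subset fun z hz => ?_
      have hzK : z ∈ K := closure_minimal Set.sdiff_subset hKcl hz
      refine ⟨hzK, fun hzU => ?_⟩
      have hze : z ≠ e := fun h => heU (h ▸ hzU)
      obtain ⟨δ, hδ, h⟩ := Cut_near hK hx hzK hze
      obtain ⟨z', hz', hd⟩ := Metric.mem_closure_iff.mp hz δ hδ
      rw [dist_comm] at hd
      exact hz'.2 ⟨hz'.1, fun hc => hzU.2 ((h z' hz'.1 hd).mpr hc)⟩
    have hpre := isPreconnected_closed_iff.mp hK.preconn U (K \ U) hUcl hVcl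
      (fun z hz => by
        by_cases h : z ∈ U
        · exact Or.inl h
        · exact Or.inr ⟨hz, h⟩)
      ⟨x, hx, hxU⟩ ⟨e, he, he, heU⟩
    obtain ⟨w, _, hw1, hw2⟩ := hpre
    exact hw2.2 hw1
  have hins : insert e U ⊆ closure U := Set.insert_subset hecl subset_closure
  have hEq : insert e U = closure U := Set.Subset.antisymm hins hcl
  have hcont : Cont (insert e U) := by
    refine ⟨?_, ?_⟩
    · rw [hEq]; exact isClosed_closure
    · exact hUpre.subset_closure (Set.subset_insert e U) hins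
  have hmin : Iv K x e ⊆ insert e U :=
    Iv_min (Set.insert_subset he hUK) hcont (Or.inr hxU) (Or.inl rfl)
  intro z hz hze
  rcases hmin hz with h | h
  · exact absurd h hze
  · exact h.2

theorem Iv_cut (hK : Den K) (ha : a ∈ K) (hx : x ∈ K) (hy : y ∈ Iv K a x) (hne : y ≠ x) :
    x ∉ Iv K a y := by
  intro hxy
  by_cases hay : a = y
  · subst hay
    rw [Iv_self hK ha] at hxy
    exact hne (Set.mem_singleton_iff.mp hxy).symm
  · exact Iv_star hK ha (Iv_sub hK ha hx hy) hay x hxy (Ne.symm hne) hy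

theorem Iv_inter (hK : Den K) (ha : a ∈ K) (hx : x ∈ K) (hy : y ∈ Iv K a x) :
    Iv K a y ∩ Iv K y x = {y} := by
  have hyK : y ∈ K := Iv_sub hK ha hx hy
  refine Set.Subset.antisymm ?_ ?_
  · rintro w ⟨hw1, hw2⟩
    by_contra hwy
    have hwy' : w ≠ y := hwy
    have hwK : w ∈ K := Iv_sub hK ha hyK hw1
    have h1 : y ∉ Iv K a w := by
      by_cases hay : a = y
      · subst hay
        rw [Iv_self hK ha] at hw1
        exact absurd hw1 hwy'
      · exact Iv_star hK ha hyK hay w hw1 hwy'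
    have h2 : y ∉ Iv K x w := by
      rw [Iv_comm] at hw2
      by_cases hxy : x = y
      · subst hxy
        rw [Iv_self hK hx] at hw2
        exact absurd hw2 hwy'
      · exact Iv_star hK hx hyK hxy w hw2 hwy'
    rcases Iv_tri hK ha hx hwK hy with h | h
    · exact h1 h
    · rw [Iv_comm] at h
      exact h2 h
  · rintro w hw
    rw [Set.mem_singleton_iff.mp hw]
    exact ⟨right_mem_Iv, left_mem_Iv⟩

theorem Iv_total (hK : Den K) (ha : a ∈ K) (hx : x ∈ K) (hy : y ∈ Iv K a x) (hz : z ∈ Iv K a x) :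
    y ∈ Iv K a z ∨ z ∈ Iv K a y := by
  by_contra hcon
  have h1 : y ∉ Iv K a z := fun h => hcon (Or.inl h)
  have h2 : z ∉ Iv K a y := fun h => hcon (Or.inr h)
  have hyK : y ∈ K := Iv_sub hK ha hx hy
  have hzK : z ∈ K := Iv_sub hK ha hx hz
  have h3 : z ∈ Iv K y x := by
    rcases Iv_tri hK ha hx hyK hz with h | h
    · exact absurd h h2
    · exact h
  have h4 : y ∈ Iv K z x := by
    rcases Iv_tri hK ha hx hzK hy with h | h
    · exact absurd h h1
    · exact h
  have hyz : y ≠ z := by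
    rintro rfl
    exact h1 right_mem_Iv
  rw [Iv_comm] at h3 h4
  exact Iv_cut hK hx hzK h4 hyz h3

end Pool.Agent.H29.CWA
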