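import Pool.Agent.H29.CW.Dyn

/-!
# MP_c830f0_an, arc theorem (note ARC, 2967): definitions

`Hyp0`: the hypotheses of `CW.Hyp` without arcs.  `Cont`: closed and preconnected.  `Den K`: compact, preconnected, hereditarily
unicoherent, locally connected.  `Iv K a x`: the smallest `Cont` subset of `K` with `a`, `x`.  `Triod K e`: simple triod in `K` with centre `e`.
-/

set_option autoImplicit false

namespace Pool.Agent.H29.CWA

open Set Filter Topology Metric
open Pool.Agent.H61.PO (IsArc Surf)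
open Pool.Agent.H29.CW

section dyn

variable {S : Type*} [MetricSpace S]

/-- cw_F-hyperbolicity at one scale `c` -/
structure Hyp0 (f : S ≃ₜ S) (c : ℝ) : Prop where
  pos : 0 < c
  fin : ∀ x, (Cs f c x ∩ Cu f c x).Finite
  lps : LPS f

theorem Hyp0.symm {f : S ≃ₜ S} {c : ℝ} (H : Hyp0 f c) : Hyp0 f.symm c where
  pos := H.pos
  fin := fun x => by
    have h := H.fin x
    rw [Set.inter_comm] at h
    exact h
  lps := H.lps.symm

end dyn

variable {X : Type*} [MetricSpace X]

/-- closed and preconnected -/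
def Cont (C : Set X) : Prop := IsClosed C ∧ IsPreconnected C

/-- hereditarily unicoherent -/
def HU (K : Set X) : Prop :=
  ∀ A B : Set X, A ⊆ K → B ⊆ K → Cont A → Cont B → IsPreconnected (A ∩ B)

/-- locally connected (connected im kleinen at every point) -/
def LC (K : Set X) : Prop :=
  ∀ x ∈ K, ∀ ε : ℝ, 0 < ε → ∃ δ : ℝ, 0 < δ ∧ ∀ y ∈ K, dist y x < δ →
    ∃ N : Set X, N ⊆ K ∧ Cont N ∧ x ∈ N ∧ y ∈ N ∧ ∀ z ∈ N, dist z x ≤ ε

/-- dendrite -/
structure Den (K : Set X) : Prop where
  compact : IsCompact K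
  preconn : IsPreconnected K
  lc : LC K
  hu : HU K

/-- the smallest continuum of `K` with `a` and `x` -/
def Iv (K : Set X) (a x : X) : Set X := ⋂₀ {C : Set X | C ⊆ K ∧ Cont C ∧ a ∈ C ∧ x ∈ C}

/-- three arcs in `K` with the common end point `e`, meeting only there -/
def Triod (K : Set X) (e : X) : Prop :=
  ∃ (σ : Fin 3 → Set X) (p : Fin 3 → X), (∀ i, IsArc (σ i) e (p i)) ∧ (∀ i, σ i ⊆ K) ∧
    ∀ i j, i ≠ j → σ i ∩ σ j = {e}

end Pool.Agent.H29.CWA
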