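import Pool.Agent.H29.CWA.Lim

/-!
# MP_c830f0_an, ARC-8: not all local stable continua are points (note 2967, A2)
-/

set_option autoImplicit false

namespace Pool.Agent.H29.CWA

open Set Filter Topology Metric
open Pool.Agent.H61.PO (IsArc Surf)
open Pool.Agent.H29.CW

variable {S : Type*} [MetricSpace S] [CompactSpace S] {f : S ≃ₜ S} {c : ℝ}

theorem deg_all (H : Hyp0 f c) (hM : Surf S) [Nonempty S] :
    ¬ ∀ z : S, Cs f (c / 8) z ⊆ {z} := by
  intro hall
  have hc := H.pos
  obtain ⟨δ, hδ, hlps⟩ := H.lps (c / 8) (by linarith)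
  have hball : ∀ z : S, ball z δ ⊆ Cs f.symm (c / 8) z := by
    intro z y hy
    obtain ⟨v, hv1, hv2⟩ := hlps y z hy
    have h1 := hall y hv1
    rw [mem_singleton_iff] at h1
    subst h1
    exact hv2
  obtain ⟨t, -, htf, ht⟩ := finite_cover_balls_of_compact (isCompact_univ (X := S)) hδ
  have : Infinite S := by
    obtain ⟨e, he, _⟩ := hM (Classical.arbitrary S) univ univ_mem
    exact Infinite.of_injective e he.injective
  obtain ⟨P, hP⟩ := Infinite.exists_subset_card_eq S (htf.toFinset.card + 1)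
  obtain ⟨η, hη, hηP⟩ : ∃ η : ℝ, 0 < η ∧ ∀ p ∈ P, ∀ q ∈ P, p ≠ q → η ≤ dist p q := by
    by_cases hne : P.offDiag.Nonempty
    · obtain ⟨d, hd, hmin⟩ := Finset.exists_min_image P.offDiag (fun d => dist d.1 d.2) hne
      rw [Finset.mem_offDiag] at hd
      refine ⟨dist d.1 d.2, dist_pos.2 hd.2.2, fun p hp q hq hpq => ?_⟩
      exact hmin (p, q) (Finset.mem_offDiag.2 ⟨hp, hq, hpq⟩)
    · refine ⟨1, one_pos, fun p hp q hq hpq => ?_⟩
      exact absurd ⟨(p, q), Finset.mem_offDiag.2 ⟨hp, hq, hpq⟩⟩ hne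
  obtain ⟨N, hN⟩ := contract0 H.symm (half_pos hη)
  have hsmall : ∀ x : S, ∀ y ∈ ball x δ, ∀ z ∈ ball x δ,
      dist ((⇑f.symm)^[N] y) ((⇑f.symm)^[N] z) ≤ η / 2 := by
    intro x y hy z hz
    exact hN x (Cs f.symm (c / 8) x) Cs_preconn (Cs_mono (by linarith) (by linarith)) N le_rfl
      y (hball x hy) z (hball x hz)
  have hsurj : Function.Surjective (⇑f.symm)^[N] := f.symm.surjective.iterate N
  choose u hu using hsurj
  have hcov : ∀ y : S, ∃ x ∈ t, y ∈ ball x δ := by
    intro y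
    have h1 := ht (mem_univ y)
    simpa using h1
  choose g hgt hg using hcov
  obtain ⟨p, hp, q, hq, hpq, hgpq⟩ := Finset.exists_ne_map_eq_of_card_lt_of_maps_to
    (s := P) (t := htf.toFinset) (by omega) (f := fun p => g (u p))
    (fun p _ => by
      rw [Finset.mem_coe, Set.Finite.mem_toFinset]
      exact hgt _)
  have h1 := hg (u p)
  have h2 := hg (u q)
  rw [hgpq] at h1
  have h3 := hsmall _ _ h1 _ h2
  rw [hu, hu] at h3
  have h4 := hηP p hp q hq hpq
  linarith

end Pool.Agent.H29.CWA
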