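import Pool.Agent.H29.CWA.Defs
import Pool.Agent.H29.CW.Lim

/-!
# MP_c830f0_an, ARC-7: `CW.contract`, `CW.small` for `Hyp0`

The proofs of `Pool/Agent/H29/CW/Lim.lean` (helper55) with `Hyp0` instead of `Hyp` (only `H.pos`, `H.fin` are used).
-/

set_option autoImplicit false

namespace Pool.Agent.H29.CWA

open Set Filter Topology Metric
open Pool.Agent.H29.CW

variable {S : Type*} [MetricSpace S] [CompactSpace S] {f : S ≃ₜ S} {a b c : ℝ}

/-- cw-expansivity at scale `c` -/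
theorem exp_small0 (H : Hyp0 f c) {A : Set S} (hA : IsPreconnected A)
    (h1 : ∀ k : ℕ, ∀ y ∈ A, ∀ z ∈ A, dist ((⇑f)^[k] y) ((⇑f)^[k] z) ≤ c)
    (h2 : ∀ k : ℕ, ∀ y ∈ A, ∀ z ∈ A, dist ((⇑f.symm)^[k] y) ((⇑f.symm)^[k] z) ≤ c) :
    A.Subsingleton := by
  intro x hx y hy
  by_contra hxy
  have h3 : A ⊆ Cs f c x := sub_Cs hA hx fun z hz k => h1 k z hz x hx
  have h4 : A ⊆ Cu f c x := sub_Cs (f := f.symm) hA hx fun z hz k => h2 k z hz x hx
  exact hA.infinite_of_nontrivial ⟨x, hx, y, hy, hxy⟩ ((H.fin x).subset (subset_inter h3 h4))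

/-- uniform contraction of stable continua under `f` -/
theorem contract0 (H : Hyp0 f c) (ha : 0 < a) : ∃ N : ℕ, ∀ (x : S) (A : Set S),
    IsPreconnected A → A ⊆ Cs f (c / 2) x → ∀ k ≥ N, ∀ y ∈ A, ∀ z ∈ A,
      dist ((⇑f)^[k] y) ((⇑f)^[k] z) ≤ a := by
  by_contra hcon
  push Not at hcon
  choose x A hA hAx k hk y hy z hz hyz using hcon
  set B : ℕ → Set S := fun n => (⇑f)^[k n] '' A n with hB
  set U : Ultrafilter ℕ := hyperfilter ℕ with hU
  have hUt : (U : Filter ℕ) ≤ atTop := Nat.hyperfilter_le_atTop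
  have hBp : IsPreconnected (UL U B) :=
    UL_preconn hUt (Eventually.of_forall fun n =>
      (hA n).image _ (f.continuous.iterate (k n)).continuousOn)
  obtain ⟨p, hp⟩ := exists_lim U fun n => (⇑f)^[k n] (y n)
  obtain ⟨q, hq⟩ := exists_lim U fun n => (⇑f)^[k n] (z n)
  have hpB : p ∈ UL U B := ⟨_, Eventually.of_forall fun n => mem_image_of_mem _ (hy n), hp⟩
  have hqB : q ∈ UL U B := ⟨_, Eventually.of_forall fun n => mem_image_of_mem _ (hz n), hq⟩
  have hpq : a ≤ dist p q :=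
    ge_of_tendsto (hp.dist hq) (Eventually.of_forall fun n => (hyz n).le)
  have h1 : ∀ i : ℕ, ∀ u ∈ UL U B, ∀ v ∈ UL U B,
      dist ((⇑f)^[i] u) ((⇑f)^[i] v) ≤ c := by
    rintro i u ⟨u', hu', hu⟩ v ⟨v', hv', hv⟩
    have h2 : Tendsto (fun n => dist ((⇑f)^[i] (u' n)) ((⇑f)^[i] (v' n))) U
        (𝓝 (dist ((⇑f)^[i] u) ((⇑f)^[i] v))) :=
      (((f.continuous.iterate i).tendsto u).comp hu).dist
        (((f.continuous.iterate i).tendsto v).comp hv)
    refine le_of_tendsto h2 ?_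
    filter_upwards [hu', hv'] with n hn1 hn2
    obtain ⟨s, hs, hs'⟩ := hn1
    obtain ⟨t, ht, ht'⟩ := hn2
    rw [← hs', ← ht', ← Function.iterate_add_apply, ← Function.iterate_add_apply]
    have h3 := Ws_dist_two (Cs_sub_Ws (hAx n hs)) (Cs_sub_Ws (hAx n ht)) (i + k n)
    linarith
  have h2 : ∀ i : ℕ, ∀ u ∈ UL U B, ∀ v ∈ UL U B,
      dist ((⇑f.symm)^[i] u) ((⇑f.symm)^[i] v) ≤ c := by
    rintro i u ⟨u', hu', hu⟩ v ⟨v', hv', hv⟩
    have h2 : Tendsto (fun n => dist ((⇑f.symm)^[i] (u' n)) ((⇑f.symm)^[i] (v' n))) U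
        (𝓝 (dist ((⇑f.symm)^[i] u) ((⇑f.symm)^[i] v))) :=
      (((f.symm.continuous.iterate i).tendsto u).comp hu).dist
        (((f.symm.continuous.iterate i).tendsto v).comp hv)
    refine le_of_tendsto h2 ?_
    have h4 : ∀ᶠ n : ℕ in (U : Filter ℕ), i ≤ n := hUt (eventually_ge_atTop i)
    have h5 : ∀ (j : ℕ) (s : S), (⇑f.symm)^[j] ((⇑f)^[j] s) = s := fun j s =>
      (Function.LeftInverse.iterate f.symm_apply_apply j) s
    filter_upwards [hu', hv', h4] with n hn1 hn2 hn3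
    obtain ⟨s, hs, hs'⟩ := hn1
    obtain ⟨t, ht, ht'⟩ := hn2
    have h6 : k n = i + (k n - i) := by
      have := hk n
      omega
    rw [← hs', ← ht', h6, Function.iterate_add_apply, Function.iterate_add_apply, h5, h5]
    have h3 := Ws_dist_two (Cs_sub_Ws (hAx n hs)) (Cs_sub_Ws (hAx n ht)) (k n - i)
    linarith
  have h3 := exp_small0 H hBp h1 h2 hpB hqB
  rw [h3, dist_self] at hpq
  exact absurd hpq (not_le.mpr ha)

/-- small stable continua have small forward iterates -/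
theorem small0 (H : Hyp0 f c) (ha : 0 < a) : ∃ θ : ℝ, 0 < θ ∧ ∀ (x : S) (A : Set S),
    IsPreconnected A → A ⊆ Cs f (c / 2) x → (∀ y ∈ A, ∀ z ∈ A, dist y z ≤ θ) →
      ∀ (k : ℕ), ∀ y ∈ A, ∀ z ∈ A, dist ((⇑f)^[k] y) ((⇑f)^[k] z) ≤ a := by
  obtain ⟨N, hN⟩ := contract0 (f := f) H ha
  have hg : Continuous fun (y : S) (k : Fin N) => (⇑f)^[(k : ℕ)] y :=
    continuous_pi fun k => f.continuous.iterate k
  have hgu := CompactSpace.uniformContinuous_of_continuous hg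
  obtain ⟨θ, hθ, h1⟩ := Metric.uniformContinuous_iff.mp hgu a ha
  refine ⟨θ / 2, half_pos hθ, fun x A hA hAx hd k y hy z hz => ?_⟩
  by_cases hk : k < N
  · have h2 : dist y z < θ := by
      have := hd y hy z hz
      linarith
    have h3 := h1 h2
    rw [dist_pi_lt_iff ha] at h3
    exact (h3 ⟨k, hk⟩).le
  · exact hN x A hA hAx k (not_lt.mp hk) y hy z hz

end Pool.Agent.H29.CWA
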