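import Pool.Agent.H29.CWA.BB
import Pool.Agent.H29.CWA.Lim

/-!
# MP_c830f0_an, ARC-8: the set of points with trivial local stable continuum is open (note 2967, A2)
-/

set_option autoImplicit false

namespace Pool.Agent.H29.CWA

open Set Filter Topology Metric
open Pool.Agent.H61.PO (IsArc Surf)
open Pool.Agent.H29.CW

variable {S : Type*} [MetricSpace S] [CompactSpace S] {f : S ≃ₜ S} {c : ℝ}

theorem deg_up' (H : Hyp0 f c) {a b : ℝ} (ha : 0 < a) (hac : a ≤ c / 2) (hb : 0 < b)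
    {z : S} (h : Cs f b z ⊆ {z}) : Cs f a z ⊆ {z} := by
  by_contra hcon
  have hn : (Cs f a z).Nontrivial := by
    rw [Set.not_subset] at hcon
    obtain ⟨w, hw, hwz⟩ := hcon
    exact ⟨w, hw, z, mem_Cs_self ha.le, hwz⟩
  obtain ⟨θ, hθ, hsm⟩ := small0 H hb
  obtain ⟨C, hCK, hCc, hzC, hCn, hCd⟩ := bump (Cs_closed (f := f) (a := a) (x := z)).isCompact
    Cs_preconn (mem_Cs_self ha.le) hn (half_pos hθ)
  have h1 := hsm z C hCc.2 (hCK.trans (Cs_mono ha.le hac)) (fun y hy w hw => by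
    have h2 := hCd y hy
    have h3 := hCd w hw
    have h4 := dist_triangle_right y w z
    linarith)
  have h2 : C ⊆ Cs f b z := sub_Cs hCc.2 hzC fun w hw k => h1 k w hw z hzC
  exact (hCn.mono (h2.trans h)).not_subsingleton subsingleton_singleton

theorem deg_near' (H : Hyp0 f c) : ∃ r : ℝ, 0 < r ∧ ∀ z : S, Cs f (c / 8) z ⊆ {z} →
    ∀ y, dist y z < r → Cs f (c / 8) y ⊆ {y} := by
  have hc := H.pos
  obtain ⟨δ, hδ, hlps⟩ := H.lps (c / 8) (by linarith)
  refine ⟨δ / 2, by linarith, fun z hz y hyz => ?_⟩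
  have hb : 0 < min (c / 8) (δ / 4) := lt_min (by linarith) (by linarith)
  have hb1 : min (c / 8) (δ / 4) ≤ c / 8 := min_le_left _ _
  have hb2 : min (c / 8) (δ / 4) ≤ δ / 4 := min_le_right _ _
  have hw : ∀ w ∈ Cs f (min (c / 8) (δ / 4)) y, z ∈ Ws f.symm (c / 8) w := by
    intro w hw
    have h1 : dist w y ≤ min (c / 8) (δ / 4) := Cs_dist hw
    have h2 := dist_triangle w y z
    obtain ⟨v, hv1, hv2⟩ := hlps z w (by rw [dist_comm]; linarith)
    have h3 := hz hv1
    rw [mem_singleton_iff] at h3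
    subst h3
    exact Cs_sub_Ws (f := f.symm) hv2
  have hy := hw y (mem_Cs_self hb.le)
  have hsub : (Cs f (min (c / 8) (δ / 4)) y).Subsingleton := by
    refine exp_small0 H Cs_preconn (fun k u hu w hw => ?_) (fun k u hu w hw' => ?_)
    · have h1 := Ws_dist_two (Cs_sub_Ws hu) (Cs_sub_Ws hw) k
      linarith
    · have h1 : u ∈ Ws f.symm (c / 8) z := Ws_comm.1 (hw u hu)
      have h2 : w ∈ Ws f.symm (c / 8) z := Ws_comm.1 (hw w hw')
      have h3 := Ws_dist_two h1 h2 k
      linarith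
  refine deg_up' H (by linarith) (by linarith) hb ?_
  intro w hw
  exact hsub hw (mem_Cs_self hb.le)

end Pool.Agent.H29.CWA
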