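import Pool.Agent.H29.CWA.ArcOf

/-!
# MP_c830f0_an, ARC-5: a dendrite without triods is an arc (note 2967, A8)

`t3`: otherwise there is `e ∈ Iv K x y ∩ Iv K x z ∩ Iv K y z`: `Iv K y z ⊆ Iv K x y ∪ Iv K x z` (`Iv_tri`, `Iv_comm`), `Iv K y z` preconnected, covered by the two closed
sets, meets both (`y`, `z`) (`isPreconnected_closed_iff`).  `e ≠ x, y, z`.  Arcs `Iv K e x`, `Iv K e y`, `Iv K e z` (`Iv_arc`), `Iv_inter`, `Iv_mono` (contained in `K`).
`arc_of_no_triod`: `φ` of `exists_phi` for some `o ∈ K`, `a` = a maximum of `φ` on `K`.  `a ∈ Iv K o x`, `x ∈ K` implies `a = x`.  For `x, y ∈ K`: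
`a ∈ Iv K x y` implies `a = x ∨ a = y` (`Iv_tri` with `o`).  `t3` for `a, x, y`: `x ∈ Iv K a y ∨ y ∈ Iv K a x` (if `a = x`: `x ∈ Iv K a y` is `left_mem_Iv`).  `arc_of_total` with `L = K`.
-/

set_option autoImplicit false

namespace Pool.Agent.H29.CWA

open Set Filter Topology Metric
open Pool.Agent.H61.PO (IsArc Surf)

variable {X : Type*} [MetricSpace X] {K : Set X} {x y z : X}

theorem t3 (hK : Den K) (hT : ∀ e ∈ K, ¬ Triod K e) (hx : x ∈ K) (hy : y ∈ K) (hz : z ∈ K) :
    x ∈ Iv K y z ∨ y ∈ Iv K x z ∨ z ∈ Iv K x y := by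
  by_contra hcon
  push Not at hcon
  obtain ⟨h1, h2, h3⟩ := hcon
  have hcov : Iv K y z ⊆ Iv K x y ∪ Iv K x z := by
    intro w hw
    have h := Iv_tri hK hy hz hx hw
    rwa [Iv_comm (a := y) (x := x)] at h
  obtain ⟨e, he1, he2, he3⟩ := isPreconnected_closed_iff.mp (Iv_preconn hK hy hz) (Iv K x y)
    (Iv K x z) Iv_closed Iv_closed hcov ⟨y, left_mem_Iv, right_mem_Iv⟩
    ⟨z, right_mem_Iv, right_mem_Iv⟩
  have hex : e ≠ x := by rintro rfl; exact h1 he1
  have hey : e ≠ y := by rintro rfl; exact h2 he3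
  have hez : e ≠ z := by rintro rfl; exact h3 he2
  have heK : e ∈ K := Iv_sub hK hy hz he1
  have hxy : Iv K e x ∩ Iv K e y = {e} := by
    have h := Iv_inter hK hx hy he2
    rwa [Iv_comm (a := x) (x := e)] at h
  have hxz : Iv K e x ∩ Iv K e z = {e} := by
    have h := Iv_inter hK hx hz he3
    rwa [Iv_comm (a := x) (x := e)] at h
  have hyz : Iv K e y ∩ Iv K e z = {e} := by
    have h := Iv_inter hK hy hz he1
    rwa [Iv_comm (a := y) (x := e)] at h
  apply hT e heK
  refine ⟨![Iv K e x, Iv K e y, Iv K e z], ![x, y, z], ?_, ?_, ?_⟩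
  · intro i
    fin_cases i
    · exact Iv_arc hK heK hx hex
    · exact Iv_arc hK heK hy hey
    · exact Iv_arc hK heK hz hez
  · intro i
    fin_cases i
    · exact Iv_sub hK heK hx
    · exact Iv_sub hK heK hy
    · exact Iv_sub hK heK hz
  · intro i j hij
    fin_cases i <;> fin_cases j
    · exact absurd rfl hij
    · exact hxy
    · exact hxz
    · show Iv K e y ∩ Iv K e x = {e}
      rw [inter_comm]; exact hxy
    · exact absurd rfl hij
    · exact hyz
    · show Iv K e z ∩ Iv K e x = {e}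
      rw [inter_comm]; exact hxz
    · show Iv K e z ∩ Iv K e y = {e}
      rw [inter_comm]; exact hyz
    · exact absurd rfl hij

theorem arc_of_no_triod (hK : Den K) (hn : K.Nontrivial) (hT : ∀ e ∈ K, ¬ Triod K e) :
    ∃ a b, IsArc K a b := by
  obtain ⟨o, ho⟩ := hn.nonempty
  obtain ⟨φ, hφc, hφ⟩ := exists_phi hK ho
  obtain ⟨a, ha, hmax⟩ := hK.compact.exists_isMaxOn ⟨o, ho⟩ hφc
  have h1 : ∀ x ∈ K, a ∈ Iv K o x → a = x := by
    intro x hx hax
    by_contra hne
    exact absurd (hmax hx) (not_le.mpr (hφ a ha x hx hax hne))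
  have h2 : ∀ x ∈ K, ∀ y ∈ K, a ∈ Iv K x y → a = x ∨ a = y := by
    intro x hx y hy hay
    rcases Iv_tri hK hx hy ho hay with h | h
    · rw [Iv_comm] at h
      exact Or.inl (h1 x hx h)
    · exact Or.inr (h1 y hy h)
  obtain ⟨b, hb, -⟩ := arc_of_total hK (Subset.refl K) hK.cont ha hn (by
    intro x hx y hy
    rcases t3 hK hT ha hx hy with h | h | h
    · rcases h2 x hx y hy h with h | h
      · left
        rw [← h]
        exact left_mem_Iv
      · right
        rw [← h]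
        exact left_mem_Iv
    · exact Or.inl h
    · exact Or.inr h)
  exact ⟨a, b, hb⟩

end Pool.Agent.H29.CWA
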