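import Pool.Agent.H29.CWA.NoTriod
import Pool.Agent.H29.CWA.Tri

/-!
# MP_c830f0_an, ARC-17: local continua of cw_F-hyperbolic homeomorphisms of surfaces are arcs (note 2967, A10)

`c'` = the minimum of the two `c₂` of `den_cu H`, `den_cu H.symm` (`≤ c/16`).  `K = Cu f c' x`: `Den`, nontrivial (`nondeg`), no triod in `K` (`K ⊆ Cu f (2 c') e ⊆ Cu f (c/8) e`, `sub_Cs_two`): `arc_of_no_triod`.
-/

set_option autoImplicit false

namespace Pool.Agent.H29.CWA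

open Set Filter Topology Metric
open Pool.Agent.H61.PO (IsArc Surf)
open Pool.Agent.H29.CW

variable {S : Type*} [MetricSpace S] [CompactSpace S] {f : S ≃ₜ S} {c : ℝ}

theorem arc_cu (H : Hyp0 f c) (hM : Surf S) [ConnectedSpace S] : ∃ c₂ : ℝ, 0 < c₂ ∧
    ∀ a, 0 < a → a ≤ c₂ → ∀ x, InArc (Cu f a x) := by
  have hc := H.pos
  obtain ⟨c₂, h2, h2c, hden⟩ := den_cu H hM
  refine ⟨c₂, h2, fun a ha hac x => ?_⟩
  have hK := hden a ha hac x
  obtain ⟨p, q, harc⟩ := arc_of_no_triod hK (nondeg H.symm hM ha x) (by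
    rintro e he ⟨σ, p, h1, h3, h4⟩
    refine no_triod H hM e ⟨σ, p, h1, fun i => (h3 i).trans ?_, h4⟩
    have h5 : Cu f a x ⊆ Cs f.symm (2 * a) e :=
      sub_Cs_two (f := f.symm) Cs_preconn he Subset.rfl
    exact h5.trans (Cs_mono (f := f.symm) (by linarith) (by linarith)))
  exact ⟨_, p, q, harc, Subset.rfl⟩

theorem locArcs (H : Hyp0 f c) (hM : Surf S) [ConnectedSpace S] : LocArcs f := by
  obtain ⟨c₂, h2, h⟩ := arc_cu H hM
  obtain ⟨c₃, h3, h'⟩ := arc_cu H.symm hM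
  refine ⟨min c₂ c₃, lt_min h2 h3, fun x => ⟨?_, ?_⟩⟩
  · exact h' _ (lt_min h2 h3) (min_le_right _ _) x
  · exact h _ (lt_min h2 h3) (min_le_left _ _) x

end Pool.Agent.H29.CWA
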