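import Pool.Agent.H29.CWA.BB
import Pool.Agent.H29.CWA.Lim
import Pool.Agent.H29.CWA.DegAll

/-!
# MP_c830f0_an, ARC-8: all local continua are nondegenerate (note 2967, A2)

`Deg f a z : Cs f a z ⊆ {z}`.  `deg_up`: for `0 < a, b ≤ c/2`, `Deg f b z → Deg f a z`: if `Cs f a z` is nontrivial, `bump` with `η = min (θ/2) ..` (`θ = θ(b)` of `small0`) gives a nontrivial
`C ⊆ Cs f a z` with all forward iterates of diameter `≤ b`: `C ⊆ Cs f b z` (`sub_Cs`).
`deg_near`: `Deg f a z`, `a ≤ c/8`, `δ = δ(a)` of `LPS`, `b = min a (δ/4)`, `dist y z < δ/2`: every `w ∈ Cs f b y` has `dist w z < δ`, so `Cs f a z ∩ Cu f a w ≠ ∅` gives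
`z ∈ Cu f a w`, `w ∈ Wu f a z`...; `Cs f b y ⊆ Wu f (2 a) y` is preconnected, so `⊆ Cu f c y ∩ Cs f c y`, finite: `Deg f b y`, so `Deg f (c/8) y`.
So `{z | Deg f (c/8) z}` is open and closed (its `δ/2`-neighbourhood is contained in it): empty or `univ`.
If `univ`: for every `a ≤ c/8`, `dist y z < δ(a) → z ∈ Cu f a y`; take `a = c/8`, `δ = δ(a)`; `ball z (δ/2) ⊆ Cu f (c/8) z`..., for every `η > 0` `contract0 H.symm` gives `k` with: the images under
`f.symm^[k]` of `ball z (δ/2)` have diameter `≤ η` (apply it to `A = Cu f (c/8) z`); `M` such balls cover `S`, `f.symm^[k]` is surjective: among `M+1` distinct points of `S` (infinite: `Surf`, an open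
embedding `ℂ → S`) two are at distance `≤ η`, for all `η > 0`: contradiction (`Finset.exists_ne_map_eq_of_card_lt_of_maps_to`).
`no_open`, `int_empty`: note, (INT): `Cs f a w` (small `a`) would be preconnected, finite, so a point.
-/

set_option autoImplicit false

namespace Pool.Agent.H29.CWA

open Set Filter Topology Metric
open Pool.Agent.H61.PO (IsArc Surf)
open Pool.Agent.H29.CW

variable {S : Type*} [MetricSpace S] [CompactSpace S] {f : S ≃ₜ S} {c : ℝ}

private theorem nt_of_not {A : Set S} {z : S} (hz : z ∈ A) (h : ¬ A ⊆ {z}) : A.Nontrivial := by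
  obtain ⟨w, hw, hwz⟩ := not_subset.mp h
  exact ⟨w, hw, z, hz, hwz⟩

theorem deg_up (H : Hyp0 f c) {a b : ℝ} (ha : 0 < a) (hac : a ≤ c / 2) (hb : 0 < b)
    {z : S} (h : Cs f b z ⊆ {z}) : Cs f a z ⊆ {z} := by
  by_contra hcon
  have hn : (Cs f a z).Nontrivial := nt_of_not (mem_Cs_self ha.le) hcon
  obtain ⟨θ, hθ, hsm⟩ := small0 H hb
  obtain ⟨C, hCK, hC, hzC, hCn, hCd⟩ :=
    bump (Cs_closed (f := f) (a := a) (x := z)).isCompact Cs_preconn (mem_Cs_self ha.le) hn
      (half_pos hθ)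
  have h1 : C ⊆ Cs f (c / 2) z := hCK.trans (Cs_mono ha.le hac)
  have h2 : ∀ y ∈ C, ∀ w ∈ C, dist y w ≤ θ := by
    intro y hy w hw
    have h3 := dist_triangle_right y w z
    have h4 := hCd y hy
    have h5 := hCd w hw
    linarith
  have h3 : C ⊆ Cs f b z := sub_Cs hC.2 hzC fun w hw k => hsm z C hC.2 h1 h2 k w hw z hzC
  obtain ⟨w, hw, hwz⟩ := hCn.exists_ne z
  exact hwz (h (h3 hw))

theorem deg_near (H : Hyp0 f c) : ∃ r : ℝ, 0 < r ∧ ∀ z : S, Cs f (c / 8) z ⊆ {z} →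
    ∀ y, dist y z < r → Cs f (c / 8) y ⊆ {y} := by
  have hc := H.pos
  obtain ⟨δ, hδ, hLPS⟩ := H.lps (c / 8) (by linarith)
  refine ⟨δ / 2, half_pos hδ, fun z hz y hyz => ?_⟩
  obtain ⟨b, hb, hbc, hbδ⟩ : ∃ b : ℝ, 0 < b ∧ b ≤ c / 8 ∧ b ≤ δ / 4 :=
    ⟨min (c / 8) (δ / 4), lt_min (by linarith) (by linarith), min_le_left _ _, min_le_right _ _⟩
  have key : Cs f b y ⊆ {y} := by
    have h1 : ∀ w ∈ Cs f b y, w ∈ Ws f.symm (c / 8) z := by
      intro w hw
      have hd : dist w y ≤ b := Cs_dist hw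
      have hd2 : dist z w < δ := by
        have h4 := dist_triangle w y z
        rw [dist_comm z w]
        linarith
      obtain ⟨v, hv1, hv2⟩ := hLPS z w hd2
      have hvz : v = z := hz hv1
      rw [hvz] at hv2
      exact Ws_comm.mp (Cs_sub_Ws (f := f.symm) hv2)
    have h2 : Cs f b y ⊆ Cs f.symm c y := by
      refine sub_Cs (f := f.symm) Cs_preconn (mem_Cs_self hb.le) fun w hw => ?_
      have h5 : z ∈ Ws f.symm (c / 8) y := Ws_comm.mp (h1 y (mem_Cs_self hb.le))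
      exact Ws_mono (by linarith) (Ws_trans h5 (h1 w hw))
    have h3 : Cs f b y ⊆ Cs f c y := Cs_mono hb.le (by linarith)
    have hfin : (Cs f b y).Finite := (H.fin y).subset (subset_inter h3 h2)
    by_contra hcon
    exact Cs_preconn.infinite_of_nontrivial (nt_of_not (mem_Cs_self hb.le) hcon) hfin
  exact deg_up H (by linarith) (by linarith) hb key

theorem nondeg (H : Hyp0 f c) (hM : Surf S) [ConnectedSpace S] {a : ℝ} (ha : 0 < a) (z : S) :
    (Cs f a z).Nontrivial := by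
  have hc := H.pos
  obtain ⟨r, hr, hnear⟩ := deg_near H
  have hcl : IsClopen {z : S | Cs f (c / 8) z ⊆ {z}} := by
    constructor
    · rw [← isOpen_compl_iff, Metric.isOpen_iff]
      intro y hy
      refine ⟨r, hr, fun w hw hw' => hy ?_⟩
      rw [mem_ball, dist_comm] at hw
      exact hnear w hw' y hw
    · rw [Metric.isOpen_iff]
      intro y hy
      exact ⟨r, hr, fun w hw => hnear y hy w (mem_ball.mp hw)⟩
  rcases isClopen_iff.mp hcl with hP | hP
  · refine nt_of_not (mem_Cs_self ha.le) fun h => ?_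
    have h1 : z ∈ {z : S | Cs f (c / 8) z ⊆ {z}} :=
      deg_up H (a := c / 8) (by linarith) (by linarith) ha h
    rw [hP] at h1
    exact h1
  · refine absurd (fun z => ?_) (deg_all H hM)
    have h1 : z ∈ {z : S | Cs f (c / 8) z ⊆ {z}} := by rw [hP]; exact mem_univ z
    exact h1

theorem no_open (H : Hyp0 f c) (hM : Surf S) [ConnectedSpace S] {W : Set S} (hW : IsOpen W)
    (hn : W.Nonempty) : ¬ ∀ w ∈ W, W ⊆ Wu f (c / 4) w := by
  intro h
  have hc := H.pos
  obtain ⟨w, hw⟩ := hn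
  obtain ⟨r, hr, hrW⟩ := Metric.isOpen_iff.mp hW w hw
  obtain ⟨a, ha, hac, har⟩ : ∃ a : ℝ, 0 < a ∧ a ≤ c ∧ a ≤ r / 2 :=
    ⟨min c (r / 2), lt_min hc (half_pos hr), min_le_left _ _, min_le_right _ _⟩
  have h1 : Cs f a w ⊆ W := by
    intro v hv
    have h2 : dist v w ≤ a := Cs_dist hv
    refine hrW ?_
    rw [mem_ball]
    linarith
  have h2 : Cs f a w ⊆ Cs f.symm c w :=
    sub_Cs (f := f.symm) Cs_preconn (mem_Cs_self ha.le) fun v hv =>
      Ws_mono (by linarith) (h w hw (h1 hv))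
  exact Cs_preconn.infinite_of_nontrivial (nondeg H hM ha w)
    ((H.fin w).subset (subset_inter (Cs_mono ha.le hac) h2))

theorem int_empty (H : Hyp0 f c) (hM : Surf S) [ConnectedSpace S] (e : S) :
    interior (Cu f (c / 2) e) = ∅ := by
  have hc := H.pos
  by_contra hcon
  obtain ⟨w, hw⟩ := nonempty_iff_ne_empty.mpr hcon
  obtain ⟨r, hr, hrW⟩ := Metric.isOpen_iff.mp isOpen_interior w hw
  obtain ⟨a, ha, hac, har⟩ : ∃ a : ℝ, 0 < a ∧ a ≤ c ∧ a ≤ r / 2 :=
    ⟨min c (r / 2), lt_min hc (half_pos hr), min_le_left _ _, min_le_right _ _⟩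
  have h1 : Cs f a w ⊆ Cs f.symm (c / 2) e := by
    intro v hv
    have h2 : dist v w ≤ a := Cs_dist hv
    refine interior_subset (hrW ?_)
    rw [mem_ball]
    linarith
  have h2 : Cs f a w ⊆ Cs f.symm (2 * (c / 2)) w :=
    sub_Cs_two (f := f.symm) Cs_preconn (mem_Cs_self ha.le) h1
  have h3 : Cs f a w ⊆ Cs f.symm c w := by
    rwa [mul_div_cancel₀ c two_ne_zero] at h2
  exact Cs_preconn.infinite_of_nontrivial (nondeg H hM ha w)
    ((H.fin w).subset (subset_inter (Cs_mono ha.le hac) h3))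

end Pool.Agent.H29.CWA
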