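import Pool.Agent.H29.CWA.Hull
import Pool.Agent.H29.CWA.Nondeg

/-!
# MP_c830f0_an, ARC-10: no holes (note 2967, A3 (NS))

`ε₀` of `hull`; `ε₁ ≤ c/4`, `ε₁ < ε₀` with `dist y z ≤ ε₁ → dist (f.symm y) (f.symm z) < ε₀` (uniform continuity); `η` of `hull` for `ε₁`; `c₁` with `2 c₁ ≤ η`.
By induction on `n` the set `f.symm^[n] '' W` (open; `frontier` commutes with homeomorphisms) has distances `≤ ε₁`: its frontier is `f.symm^[n] '' frontier W` and
`frontier W ⊆ Cu f c₁ x ⊆ Wu f c₁ x` (`Ws_dist_two`).  So `W ⊆ Wu f (c/4) w` for `w ∈ W`: `no_open`.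
-/

set_option autoImplicit false

namespace Pool.Agent.H29.CWA

open Set Filter Topology Metric
open Pool.Agent.H61.PO (IsArc Surf)
open Pool.Agent.H29.CW

variable {S : Type*} [MetricSpace S] [CompactSpace S] {f : S ≃ₜ S} {c : ℝ}

theorem no_hole (H : Hyp0 f c) (hM : Surf S) [ConnectedSpace S] : ∃ ε₀ c₁ : ℝ, 0 < ε₀ ∧ 0 < c₁ ∧
    ∀ (x : S) (W : Set S), IsOpen W → W.Nonempty → (∀ y ∈ W, ∀ z ∈ W, dist y z < ε₀) →
      ¬ frontier W ⊆ Cu f c₁ x := by
  obtain ⟨ε₀, hε₀, hhull⟩ := hull hM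
  have huc : UniformContinuous (⇑f.symm) :=
    CompactSpace.uniformContinuous_of_continuous f.symm.continuous
  obtain ⟨ρ, hρ, hρ2⟩ := Metric.uniformContinuous_iff.1 huc ε₀ hε₀
  have hc := H.pos
  set ε₁ : ℝ := min (c / 4) (ρ / 2) with hε₁
  have hε₁pos : 0 < ε₁ := lt_min (by linarith) (by linarith)
  have hε₁c : ε₁ ≤ c / 4 := min_le_left _ _
  have hε₁ρ : ε₁ < ρ := (min_le_right _ _).trans_lt (by linarith)
  obtain ⟨η, hη, hη2⟩ := hhull ε₁ hε₁pos
  refine ⟨ε₀, η / 2, hε₀, by linarith, fun x W hW hne hd hfr => ?_⟩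
  have hfd : ∀ n : ℕ, ∀ y ∈ (⇑f.symm)^[n] '' frontier W, ∀ z ∈ (⇑f.symm)^[n] '' frontier W,
      dist y z ≤ η := by
    rintro n _ ⟨y, hy, rfl⟩ _ ⟨z, hz, rfl⟩
    have h1 := Ws_dist_two (f := f.symm) (Cs_sub_Ws (f := f.symm) (hfr hy))
      (Cs_sub_Ws (f := f.symm) (hfr hz)) n
    linarith
  have key : ∀ n : ℕ, IsOpen ((⇑f.symm)^[n] '' W) ∧
      frontier ((⇑f.symm)^[n] '' W) = (⇑f.symm)^[n] '' frontier W ∧
      ∀ y ∈ (⇑f.symm)^[n] '' W, ∀ z ∈ (⇑f.symm)^[n] '' W, dist y z ≤ ε₁ := by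
    intro n
    induction n with
    | zero =>
      have h0 : ∀ A : Set S, (⇑f.symm)^[0] '' A = A := fun A => by
        rw [Function.iterate_zero, image_id]
      rw [h0, h0]
      refine ⟨hW, rfl, ?_⟩
      refine hη2 W hW hd ?_
      have h1 := hfd 0
      rwa [h0] at h1
    | succ n ih =>
      obtain ⟨h1, h2, h3⟩ := ih
      have hs : ∀ A : Set S, (⇑f.symm)^[n + 1] '' A = ⇑f.symm '' ((⇑f.symm)^[n] '' A) := by
        intro A
        rw [Function.iterate_succ', image_comp]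
      have hopen : IsOpen ((⇑f.symm)^[n + 1] '' W) := by
        rw [hs]
        exact f.symm.isOpenMap _ h1
      have hfront : frontier ((⇑f.symm)^[n + 1] '' W) = (⇑f.symm)^[n + 1] '' frontier W := by
        rw [hs, hs, ← f.symm.image_frontier, h2]
      refine ⟨hopen, hfront, ?_⟩
      refine hη2 _ hopen ?_ ?_
      · rw [hs]
        rintro _ ⟨y, hy, rfl⟩ _ ⟨z, hz, rfl⟩
        exact hρ2 ((h3 y hy z hz).trans_lt hε₁ρ)
      · rw [hfront]
        exact hfd (n + 1)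
  refine no_open H hM hW hne fun w hw z hz k => ?_
  exact ((key k).2.2 _ (mem_image_of_mem _ hz) _ (mem_image_of_mem _ hw)).trans hε₁c

end Pool.Agent.H29.CWA
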