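import Pool.Agent.H29.CWA.Defs

/-!
# MP_c830f0_an, ARC-9: small open sets with small frontier (note 2967, A3 (H))

Finitely many charts `e i : ℂ → S` (open embeddings, `Surf`) and `ε₀ > 0` with: for every `x` there is `i` with `closedBall x (2 ε₀) ⊆ e i '' ball 0 1` (Lebesgue number lemma,
`lebesgue_number_lemma_of_metric`).  `w ∈ W`: `closure W ⊆ closedBall w ε₀ ⊆ e i '' ball 0 1`.  `W' = e i ⁻¹' W` is open, nonempty, bounded (`⊆ ball 0 1`),
`frontier W' ⊆ e i ⁻¹' frontier W`; `frontier W' ≠ ∅` (otherwise `W'` clopen, `= univ`, not bounded); all points of `frontier W'` are within `η'` of `k₀ ∈ frontier W'`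
(the inverse of `e i` on the compact `e i '' closedBall 0 1` is uniformly continuous); every `w' ∈ W'` is in `closedBall k₀ η'`: otherwise the ray `{k₀ + t (w' - k₀) : t ≥ 1}` is connected,
misses `frontier W'`, meets `W'`, so is contained in `W'` (`IsPreconnected.subset_of_...`, e.g. `isPreconnected_iff_subset_of_disjoint` with `W'` and `(closure W')ᶜ`), which is bounded:
contradiction.  `e i` is uniformly continuous on `closedBall 0 1`.
-/

set_option autoImplicit false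

namespace Pool.Agent.H29.CWA

open Set Filter Topology Metric
open Pool.Agent.H61.PO (IsArc Surf)

/-- the planar case -/
theorem hull_plane {W : Set ℂ} (hW : IsOpen W) (hb : Bornology.IsBounded W) {k : ℂ} {r : ℝ}
    (hf : frontier W ⊆ closedBall k r) : W ⊆ closedBall k r := by
  intro w hw
  by_contra hwr
  rw [mem_closedBall, not_le, dist_eq_norm] at hwr
  -- a direction
  obtain ⟨u, hu0, hu⟩ : ∃ u : ℂ, u ≠ 0 ∧ ∀ t : ℝ, 0 ≤ t → ‖w - k‖ ≤ ‖w + (t : ℂ) * u - k‖ := by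
    by_cases h : w = k
    · refine ⟨1, one_ne_zero, fun t _ => ?_⟩
      rw [h, sub_self, norm_zero]
      exact norm_nonneg _
    · refine ⟨w - k, sub_ne_zero.2 h, fun t ht => ?_⟩
      have h1 : w + (t : ℂ) * (w - k) - k = ((1 + t : ℝ) : ℂ) * (w - k) := by
        push_cast
        ring
      rw [h1, norm_mul, Complex.norm_real, Real.norm_of_nonneg (by linarith)]
      have h2 := norm_nonneg (w - k)
      nlinarith
  -- the ray
  let g : ℝ → ℂ := fun t => w + (t : ℂ) * u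
  have hg : Continuous g := by
    show Continuous fun t : ℝ => w + (t : ℂ) * u
    fun_prop
  have hR : IsPreconnected (g '' Ici 0) := isPreconnected_Ici.image g hg.continuousOn
  have hmiss : ∀ t : ℝ, 0 ≤ t → g t ∉ frontier W := by
    intro t ht hmem
    have h1 := hf hmem
    rw [mem_closedBall, dist_eq_norm] at h1
    have h2 := hu t ht
    have h3 : ‖w + (t : ℂ) * u - k‖ ≤ r := h1
    linarith
  have hsub : g '' Ici 0 ⊆ W := by
    refine hR.subset_left_of_subset_union hW (isClosed_closure (s := W)).isOpen_compl ?_ ?_ ?_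
    · rw [disjoint_compl_right_iff_subset]
      exact subset_closure
    · rintro _ ⟨t, ht, rfl⟩
      by_cases h : g t ∈ closure W
      · left
        by_contra h2
        apply hmiss t ht
        rw [hW.frontier_eq]
        exact ⟨h, h2⟩
      · right
        exact h
    · refine ⟨w, ⟨0, mem_Ici.2 le_rfl, ?_⟩, hw⟩
      show w + ((0 : ℝ) : ℂ) * u = w
      simp
  obtain ⟨C, hC⟩ := hb.exists_norm_le
  have hupos : 0 < ‖u‖ := norm_pos_iff.2 hu0
  have hC0 : 0 ≤ C := (norm_nonneg w).trans (hC w hw)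
  have ht : (0 : ℝ) ≤ (C + C + 1) / ‖u‖ := by positivity
  have h1 := hC _ (hsub ⟨(C + C + 1) / ‖u‖, ht, rfl⟩)
  have h2 : ‖w + (((C + C + 1) / ‖u‖ : ℝ) : ℂ) * u‖ ≤ C := h1
  have h3 : ‖(((C + C + 1) / ‖u‖ : ℝ) : ℂ) * u‖ = C + C + 1 := by
    rw [norm_mul, Complex.norm_real, Real.norm_of_nonneg ht]
    field_simp
  have h4 : ‖(((C + C + 1) / ‖u‖ : ℝ) : ℂ) * u‖ ≤
      ‖w + (((C + C + 1) / ‖u‖ : ℝ) : ℂ) * u‖ + ‖w‖ := by
    have h5 := norm_sub_le (w + (((C + C + 1) / ‖u‖ : ℝ) : ℂ) * u) w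
    rwa [add_sub_cancel_left] at h5
  have h6 := hC w hw
  linarith

/-- one chart -/
theorem hull_chart {S : Type*} [MetricSpace S] {e : ℂ → S} (he : IsOpenEmbedding e) {ε : ℝ}
    (hε : 0 < ε) : ∃ η : ℝ, 0 < η ∧ ∀ W : Set S, IsOpen W → W ⊆ e '' ball 0 1 →
      (∀ y ∈ frontier W, ∀ z ∈ frontier W, dist y z ≤ η) →
        ∀ y ∈ W, ∀ z ∈ W, dist y z ≤ ε := by
  have hK : IsCompact (closedBall (0 : ℂ) 1) := isCompact_closedBall 0 1
  have huc := hK.uniformContinuousOn_of_continuous he.continuous.continuousOn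
  rw [Metric.uniformContinuousOn_iff] at huc
  obtain ⟨ρ, hρ, hρ2⟩ := huc ε hε
  -- the inverse
  have hinv : ∃ η : ℝ, 0 < η ∧ ∀ a ∈ closedBall (0 : ℂ) 1, ∀ b ∈ closedBall (0 : ℂ) 1,
      dist (e a) (e b) ≤ η → dist a b ≤ ρ / 3 := by
    let P : Set (ℂ × ℂ) := (closedBall (0 : ℂ) 1 ×ˢ closedBall (0 : ℂ) 1) ∩
      {p | ρ / 3 ≤ dist p.1 p.2}
    have hP : IsCompact P :=
      (hK.prod hK).inter_right (isClosed_le continuous_const (continuous_fst.dist continuous_snd))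
    have hcont : Continuous fun p : ℂ × ℂ => dist (e p.1) (e p.2) :=
      (he.continuous.comp continuous_fst).dist (he.continuous.comp continuous_snd)
    rcases P.eq_empty_or_nonempty with hPe | hPn
    · refine ⟨1, one_pos, fun a ha b hb _ => ?_⟩
      by_contra hab
      have : ((a, b) : ℂ × ℂ) ∈ P := ⟨⟨ha, hb⟩, (not_le.1 hab).le⟩
      rw [hPe] at this
      exact this
    · obtain ⟨q, hq, hmin⟩ := hP.exists_isMinOn hPn hcont.continuousOn
      have hq1 : 0 < dist (e q.1) (e q.2) := by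
        rw [dist_pos]
        intro heq
        have h1 := he.injective heq
        have h2 : ρ / 3 ≤ dist q.1 q.2 := hq.2
        rw [h1, dist_self] at h2
        linarith
      refine ⟨dist (e q.1) (e q.2) / 2, half_pos hq1, fun a ha b hb hle => ?_⟩
      by_contra hab
      have hmem : ((a, b) : ℂ × ℂ) ∈ P := ⟨⟨ha, hb⟩, (not_le.1 hab).le⟩
      have h3 : dist (e q.1) (e q.2) ≤ dist (e a) (e b) := hmin hmem
      linarith
  obtain ⟨η, hη, hη2⟩ := hinv
  refine ⟨η, hη, fun W hW hWe hfr y hy z hz => ?_⟩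
  have hW'o : IsOpen (e ⁻¹' W) := hW.preimage he.continuous
  have hW'b : e ⁻¹' W ⊆ ball 0 1 := by
    intro a ha
    obtain ⟨b, hb, hbe⟩ := hWe ha
    rw [← he.injective hbe]
    exact hb
  have hbd : Bornology.IsBounded (e ⁻¹' W) := isBounded_ball.subset hW'b
  have hfr1 : frontier (e ⁻¹' W) ⊆ e ⁻¹' frontier W := he.continuous.frontier_preimage_subset W
  have hfr2 : frontier (e ⁻¹' W) ⊆ closedBall 0 1 := by
    intro a ha
    have h1 : a ∈ closure (e ⁻¹' W) := frontier_subset_closure ha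
    exact (closure_mono hW'b).trans closure_ball_subset_closedBall h1
  obtain ⟨a, ha, rfl⟩ := hWe hy
  obtain ⟨b, hb, rfl⟩ := hWe hz
  have ha' : a ∈ e ⁻¹' W := hy
  have hb' : b ∈ e ⁻¹' W := hz
  have hk : ∃ k : ℂ, frontier (e ⁻¹' W) ⊆ closedBall k (ρ / 3) := by
    rcases (frontier (e ⁻¹' W)).eq_empty_or_nonempty with h | ⟨k, hk⟩
    · refine ⟨0, ?_⟩
      rw [h]
      exact empty_subset _
    · exact ⟨k, fun c hc => hη2 c (hfr2 hc) k (hfr2 hk) (hfr _ (hfr1 hc) _ (hfr1 hk))⟩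
  obtain ⟨k, hk⟩ := hk
  have hsub := hull_plane hW'o hbd hk
  have h1 : dist a k ≤ ρ / 3 := hsub ha'
  have h2 : dist b k ≤ ρ / 3 := hsub hb'
  have h3 : dist a b < ρ := by
    have h4 := dist_triangle_right a b k
    linarith
  exact (hρ2 a (ball_subset_closedBall ha) b (ball_subset_closedBall hb) h3).le

theorem hull {S : Type*} [MetricSpace S] [CompactSpace S] (hM : Surf S) : ∃ ε₀ : ℝ, 0 < ε₀ ∧
    ∀ ε : ℝ, 0 < ε → ∃ η : ℝ, 0 < η ∧ ∀ W : Set S, IsOpen W →
      (∀ y ∈ W, ∀ z ∈ W, dist y z < ε₀) → (∀ y ∈ frontier W, ∀ z ∈ frontier W, dist y z ≤ η) →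
        ∀ y ∈ W, ∀ z ∈ W, dist y z ≤ ε := by
  have hch : ∀ x : S, ∃ e : ℂ → S, IsOpenEmbedding e ∧ e 0 = x := fun x => by
    obtain ⟨e, he, h0, _⟩ := hM x univ univ_mem
    exact ⟨e, he, h0⟩
  choose e he h0 using hch
  have hop : ∀ x, IsOpen (e x '' ball 0 1) := fun x => (he x).isOpenMap _ isOpen_ball
  obtain ⟨t, ht⟩ := isCompact_univ.elim_finite_subcover (fun x => e x '' ball (0 : ℂ) 1) hop
    (fun x _ => mem_iUnion.2 ⟨x, 0, mem_ball_self one_pos, h0 x⟩)
  obtain ⟨δ, hδ, hδ2⟩ := lebesgue_number_lemma_of_metric (s := (univ : Set S))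
    (c := fun x : t => e x.1 '' ball (0 : ℂ) 1) isCompact_univ (fun x => hop x.1) (by
      intro y hy
      obtain ⟨x, hx⟩ := mem_iUnion.1 (ht hy)
      obtain ⟨hxt, hx2⟩ := mem_iUnion.1 hx
      exact mem_iUnion.2 ⟨⟨x, hxt⟩, hx2⟩)
  refine ⟨δ, hδ, fun ε hε => ?_⟩
  have hη : ∀ x : S, ∃ η : ℝ, 0 < η ∧ ∀ W : Set S, IsOpen W → W ⊆ e x '' ball 0 1 →
      (∀ y ∈ frontier W, ∀ z ∈ frontier W, dist y z ≤ η) →
        ∀ y ∈ W, ∀ z ∈ W, dist y z ≤ ε := fun x => hull_chart (he x) hε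
  choose η hη hη2 using hη
  have hmin : ∃ η₀ : ℝ, 0 < η₀ ∧ ∀ x ∈ t, η₀ ≤ η x := by
    rcases t.eq_empty_or_nonempty with h | h
    · refine ⟨1, one_pos, fun x hx => ?_⟩
      rw [h] at hx
      exact absurd hx (Finset.notMem_empty x)
    · obtain ⟨x, hx, hx2⟩ := t.exists_min_image η h
      exact ⟨η x, hη x, hx2⟩
  obtain ⟨η₀, hη₀, hη₀2⟩ := hmin
  refine ⟨η₀, hη₀, fun W hW hWd hWf y hy z hz => ?_⟩
  obtain ⟨x, hx⟩ := hδ2 y (mem_univ y)
  refine hη2 x.1 W hW ?_ ?_ y hy z hz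
  · intro w hw
    exact hx (hWd w hw y hy)
  · intro a ha b hb
    exact (hWf a ha b hb).trans (hη₀2 x.1 x.2)

end Pool.Agent.H29.CWA
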