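import Pool.Agent.H29.CWA.Defs

/-!
# MP_c830f0_an, ARC-1: the smallest continua `Iv K a x` (note 2967, A6)

`Iv_preconn`: finite intersections of members of the family are members (`Den.hu`), so the family is directed by `⊇`; an intersection of a
directed family of compact preconnected sets of a Hausdorff space is preconnected (look in Mathlib for
`IsPreconnected`/`IsConnected` ... `iInter_of_directed`, or: if `⋂ = P ∪ Q` disjoint closed nonempty, disjoint open `V ⊇ P`, `W ⊇ Q`, by compactness some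
member is contained in `V ∪ W`).  `Iv_min` is `sInter_subset_of_mem`.  `Iv_tri`: the union is a member.
-/

set_option autoImplicit false

namespace Pool.Agent.H29.CWA

open Set Filter Topology Metric
open Pool.Agent.H61.PO (IsArc Surf)

variable {X : Type*} [MetricSpace X] {K C : Set X} {a x y : X}

theorem Den.cont (hK : Den K) : Cont K := ⟨hK.compact.isClosed, hK.preconn⟩

theorem left_mem_Iv : a ∈ Iv K a x := by
  intro C hC
  exact hC.2.2.1

theorem right_mem_Iv : x ∈ Iv K a x := by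
  intro C hC
  exact hC.2.2.2

theorem Iv_comm : Iv K a x = Iv K x a := by
  have h : ∀ b z : X, Iv K b z ⊆ Iv K z b := by
    intro b z p hp C hC
    exact hp C ⟨hC.1, hC.2.1, hC.2.2.2, hC.2.2.1⟩
  exact Set.Subset.antisymm (h a x) (h x a)

theorem Iv_min (hC : C ⊆ K) (h : Cont C) (ha : a ∈ C) (hx : x ∈ C) : Iv K a x ⊆ C :=
  Set.sInter_subset_of_mem ⟨hC, h, ha, hx⟩

theorem Iv_sub (hK : Den K) (ha : a ∈ K) (hx : x ∈ K) : Iv K a x ⊆ K :=
  Iv_min (Set.Subset.refl K) hK.cont ha hx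

theorem Iv_closed : IsClosed (Iv K a x) :=
  isClosed_sInter fun _ hC => hC.2.1.1

/-- a member of the family inside every open neighbourhood of the intersection -/
theorem Iv_mem_nhds (hK : Den K) (ha : a ∈ K) (hx : x ∈ K) {U : Set X} (hU : IsOpen U)
    (hIU : Iv K a x ⊆ U) : ∃ C : Set X, C ⊆ K ∧ Cont C ∧ a ∈ C ∧ x ∈ C ∧ C ⊆ U := by
  let ι := {C : Set X // C ⊆ K ∧ Cont C ∧ a ∈ C ∧ x ∈ C}
  let V : ι → Set X := fun i => i.1
  have : Nonempty ι := ⟨⟨K, Set.Subset.refl K, hK.cont, ha, hx⟩⟩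
  have hdir : Directed (· ⊇ ·) V := by
    intro i j
    refine ⟨⟨i.1 ∩ j.1, fun z hz => i.2.1 hz.1, ⟨i.2.2.1.1.inter j.2.2.1.1, ?_⟩,
      ⟨i.2.2.2.1, j.2.2.2.1⟩, ⟨i.2.2.2.2, j.2.2.2.2⟩⟩, ?_, ?_⟩
    · exact hK.hu i.1 j.1 i.2.1 j.2.1 i.2.2.1 j.2.2.1
    · intro z hz
      exact hz.1
    · intro z hz
      exact hz.2
  have hcpt : ∀ i, IsCompact (V i) := fun i => hK.compact.of_isClosed_subset i.2.2.1.1 i.2.1
  have hcl : ∀ i, IsClosed (V i) := fun i => i.2.2.1.1
  obtain ⟨i, hi⟩ := exists_subset_nhds_of_isCompact' hdir hcpt hcl (U := U) (by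
    intro z hz
    refine hU.mem_nhds (hIU ?_)
    intro C hC
    exact Set.mem_iInter.1 hz ⟨C, hC⟩)
  exact ⟨i.1, i.2.1, i.2.2.1, i.2.2.2.1, i.2.2.2.2, hi⟩

theorem Iv_preconn (hK : Den K) (ha : a ∈ K) (hx : x ∈ K) : IsPreconnected (Iv K a x) := by
  rw [isPreconnected_iff_subset_of_fully_disjoint_closed Iv_closed]
  intro u v hu hv huv hd
  have hdis : Disjoint (Iv K a x ∩ u) (Iv K a x ∩ v) :=
    hd.mono Set.inter_subset_right Set.inter_subset_right
  obtain ⟨U, W, hUo, hWo, hU, hW, hUW⟩ :=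
    normal_separation (Iv_closed.inter hu) (Iv_closed.inter hv) hdis
  have hsub : Iv K a x ⊆ U ∪ W := by
    intro z hz
    rcases huv hz with h | h
    · exact Or.inl (hU ⟨hz, h⟩)
    · exact Or.inr (hW ⟨hz, h⟩)
  obtain ⟨C, hCK, hCc, haC, hxC, hCU⟩ := Iv_mem_nhds hK ha hx (hUo.union hWo) hsub
  have hIC : Iv K a x ⊆ C := Iv_min hCK hCc haC hxC
  rcases IsPreconnected.subset_or_subset hUo hWo hUW hCU hCc.2 with h | h
  · left
    intro z hz
    rcases huv hz with h1 | h1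
    · exact h1
    · exact absurd (hW ⟨hz, h1⟩) (Set.disjoint_left.1 hUW (h (hIC hz)))
  · right
    intro z hz
    rcases huv hz with h1 | h1
    · exact absurd (h (hIC hz)) (Set.disjoint_left.1 hUW (hU ⟨hz, h1⟩))
    · exact h1

theorem Iv_cont (hK : Den K) (ha : a ∈ K) (hx : x ∈ K) : Cont (Iv K a x) :=
  ⟨Iv_closed, Iv_preconn hK ha hx⟩

theorem Iv_self (hK : Den K) (ha : a ∈ K) : Iv K a a = {a} := by
  refine Set.Subset.antisymm ?_ (Set.singleton_subset_iff.2 left_mem_Iv)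
  exact Iv_min (Set.singleton_subset_iff.2 ha) ⟨isClosed_singleton, isPreconnected_singleton⟩
    (Set.mem_singleton a) (Set.mem_singleton a)

theorem Iv_mono (hK : Den K) (ha : a ∈ K) (hx : x ∈ K) (hy : y ∈ Iv K a x) :
    Iv K a y ⊆ Iv K a x :=
  Iv_min (Iv_sub hK ha hx) (Iv_cont hK ha hx) left_mem_Iv hy

theorem Iv_tri (hK : Den K) (ha : a ∈ K) (hx : x ∈ K) (hy : y ∈ K) :
    Iv K a x ⊆ Iv K a y ∪ Iv K y x := by
  refine Iv_min (Set.union_subset (Iv_sub hK ha hy) (Iv_sub hK hy hx)) ⟨?_, ?_⟩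
    (Or.inl left_mem_Iv) (Or.inr right_mem_Iv)
  · exact Iv_closed.union Iv_closed
  · exact IsPreconnected.union y right_mem_Iv left_mem_Iv (Iv_preconn hK ha hy)
      (Iv_preconn hK hy hx)

end Pool.Agent.H29.CWA
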