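import Pool.Agent.H61.PO.Disconn
import Pool.Agent.H61.PO.Dual
import Pool.Agent.H61.PO.Glue
import Pool.Agent.H61.PO.LocalB

/-!
# MP_c830f0_an, ARC-11: Janiszewski's theorem (note 2967, A4 (J))

`A ∩ B = P ∪ Q`, `P ⊆ V₁`, `Q ⊆ V₂`, open and disjoint; `t z = if z ∈ V₂ then 1 else 0`;
`g a b = if a ∈ B ∧ b ∈ B then t a + t b else 0`.  `Y = A ∪ B ∪ sphere 0 R`.  `Coc Y g`,
`Cob (sphere 0 R) g`, `¬ Cob (A ∪ B) g`, so by `disconn` and `conn_of_cob` there are `p`, `q` with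
`¬ Cob Y (th p + th q)`, so (`glueCob_conn`, `th_sphere`) `¬ Cob (A ∪ B) (th p + th q)`, so (`th_same`)
`q ∉ connectedComponentIn (A ∪ B)ᶜ p`.  One of the two components is bounded.
-/

set_option autoImplicit false

namespace Pool.Agent.H29.CWA

open Set Filter Topology Metric
open Pool.Agent.H61.PO

private theorem jan_compl {R : ℝ} (hR : 0 < R) : IsPreconnected (closedBall (0 : ℂ) R)ᶜ := by
  have h1 : (closedBall (0 : ℂ) R)ᶜ
      = (fun z : ℝ × ℝ => (z.1 : ℂ) * Complex.exp ((z.2 : ℂ) * Complex.I)) '' (Ioi R ×ˢ univ) := by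
    ext z
    constructor
    · intro hz
      rw [mem_compl_iff, mem_closedBall, dist_zero_right, not_le] at hz
      refine ⟨(‖z‖, Complex.arg z), ⟨hz, mem_univ _⟩, ?_⟩
      exact Complex.norm_mul_exp_arg_mul_I z
    · rintro ⟨w, ⟨hw, -⟩, rfl⟩
      rw [mem_compl_iff, mem_closedBall, dist_zero_right, not_le]
      rw [norm_mul, Complex.norm_exp_ofReal_mul_I, mul_one, Complex.norm_real, Real.norm_eq_abs,
        abs_of_pos (hR.trans hw)]
      exact hw
  rw [h1]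
  refine (isPreconnected_Ioi.prod isPreconnected_univ).image _ ?_
  fun_prop

private theorem jan_comp {K : Set ℂ} (hK : IsCompact K) {p q : ℂ}
    (hp : p ∉ K) (hq : q ∉ K) (hpq : q ∉ connectedComponentIn Kᶜ p) :
    Bornology.IsBounded (connectedComponentIn Kᶜ p) ∨
      Bornology.IsBounded (connectedComponentIn Kᶜ q) := by
  by_contra hno
  rw [not_or] at hno
  obtain ⟨R, hR0, hR⟩ := hK.isBounded.subset_closedBall_lt 0 (0 : ℂ)
  have key : ∀ x : ℂ, x ∉ K → ¬ Bornology.IsBounded (connectedComponentIn Kᶜ x) →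
      (closedBall (0 : ℂ) R)ᶜ ⊆ connectedComponentIn Kᶜ x := by
    intro x hx hb
    have h1 : ¬ connectedComponentIn Kᶜ x ⊆ closedBall 0 R := fun h =>
      hb (isBounded_closedBall.subset h)
    obtain ⟨u, hu, huR⟩ := not_subset.1 h1
    rw [connectedComponentIn_eq hu]
    exact (jan_compl hR0).subset_connectedComponentIn huR (compl_subset_compl.2 hR)
  have h1 := key p hp hno.1
  have h2 := key q hq hno.2
  have hne : ((R : ℂ) + 1) ∈ (closedBall (0 : ℂ) R)ᶜ := by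
    rw [mem_compl_iff, mem_closedBall, dist_zero_right, not_le]
    have : ((R : ℂ) + 1) = ((R + 1 : ℝ) : ℂ) := by push_cast; ring
    rw [this, Complex.norm_real, Real.norm_eq_abs, abs_of_pos (by linarith)]
    linarith
  apply hpq
  rw [connectedComponentIn_eq (h1 hne), ← connectedComponentIn_eq (h2 hne)]
  exact mem_connectedComponentIn hq

theorem janiszewski {A B : Set ℂ} (hA : IsCompact A) (hB : IsCompact B) (hAc : IsPreconnected A)
    (hBc : IsPreconnected B) (hn : ¬ IsPreconnected (A ∩ B)) :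
    ∃ W : Set ℂ, IsOpen W ∧ W.Nonempty ∧ Bornology.IsBounded W ∧ frontier W ⊆ A ∪ B := by
  classical
  -- the two pieces
  rw [isPreconnected_closed_iff] at hn
  push Not at hn
  obtain ⟨t₁, t₂, ht₁, ht₂, hcov, hne₁, hne₂, hemp⟩ := hn
  have hAB : IsCompact (A ∩ B) := hA.inter_right hB.isClosed
  have hdisj : Disjoint (A ∩ B ∩ t₁) (A ∩ B ∩ t₂) := by
    rw [Set.disjoint_left]
    rintro x ⟨hx, hx1⟩ ⟨-, hx2⟩
    have : x ∈ A ∩ B ∩ (t₁ ∩ t₂) := ⟨hx, hx1, hx2⟩
    rw [hemp] at this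
    exact this
  obtain ⟨V₁, V₂, hV₁, hV₂, hP, hQ, hVd⟩ :=
    SeparatedNhds.of_isCompact_isCompact (hAB.inter_right ht₁) (hAB.inter_right ht₂) hdisj
  rw [Set.disjoint_left] at hVd
  have hV : ∀ x ∈ A ∩ B, x ∈ V₁ ∨ x ∈ V₂ := by
    intro x hx
    rcases hcov hx with h | h
    · exact Or.inl (hP ⟨hx, h⟩)
    · exact Or.inr (hQ ⟨hx, h⟩)
  obtain ⟨t, ht⟩ : ∃ t : ℂ → ZMod 2, t = fun z => if z ∈ V₂ then 1 else 0 := ⟨_, rfl⟩
  have t1 : ∀ z ∈ V₁, t z = 0 := by
    intro z hz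
    rw [ht]
    exact if_neg (hVd hz)
  have t2 : ∀ z ∈ V₂, t z = 1 := by
    intro z hz
    rw [ht]
    exact if_pos hz
  obtain ⟨g, hg⟩ : ∃ g : ℂ → ℂ → ZMod 2, g = fun a b =>
    if a ∈ B ∧ b ∈ B then t a + t b else 0 := ⟨_, rfl⟩
  have gB : ∀ a ∈ B, ∀ b ∈ B, g a b = t a + t b := by
    intro a ha b hb
    rw [hg]
    exact if_pos ⟨ha, hb⟩
  have g0 : ∀ a b, a ∉ B ∨ b ∉ B → g a b = 0 := by
    intro a b hab
    rw [hg]
    exact if_neg (fun h' => hab.elim (fun h => h h'.1) (fun h => h h'.2))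
  have gV₁ : ∀ a ∈ V₁, ∀ b ∈ V₁, g a b = 0 := by
    intro a ha b hb
    by_cases hab : a ∈ B ∧ b ∈ B
    · rw [gB a hab.1 b hab.2, t1 a ha, t1 b hb, add_zero]
    · exact g0 a b (not_and_or.1 hab)
  have gV₂ : ∀ a ∈ V₂, ∀ b ∈ V₂, g a b = 0 := by
    intro a ha b hb
    by_cases hab : a ∈ B ∧ b ∈ B
    · rw [gB a hab.1 b hab.2, t2 a ha, t2 b hb]
      decide
    · exact g0 a b (not_and_or.1 hab)
  -- `g` vanishes near the points of `A ∩ B` and outside `B`
  have gA : ∀ x ∈ Bᶜ ∪ A, ∃ U ∈ 𝓝 x, ∀ a ∈ U, ∀ b ∈ U, g a b = 0 := by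
    intro x hx
    by_cases hxB : x ∈ B
    · have hxA : x ∈ A := hx.resolve_left (fun h => h hxB)
      rcases hV x ⟨hxA, hxB⟩ with h | h
      · exact ⟨V₁, hV₁.mem_nhds h, gV₁⟩
      · exact ⟨V₂, hV₂.mem_nhds h, gV₂⟩
    · exact ⟨Bᶜ, hB.isClosed.isOpen_compl.mem_nhds hxB, fun a ha b _ => g0 a b (Or.inl ha)⟩
  obtain ⟨R, hR0, hR⟩ := (hA.union hB).isBounded.subset_ball_lt 0 (0 : ℂ)
  have hK : IsCompact (A ∪ B) := hA.union hB
  have hYc : IsCompact (A ∪ B ∪ sphere (0 : ℂ) R) := hK.union (isCompact_sphere 0 R)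
  have hsB : ∀ x ∈ sphere (0 : ℂ) R, x ∉ A ∪ B := by
    intro x hx hxB
    have h1 := hR hxB
    rw [mem_ball] at h1
    rw [mem_sphere] at hx
    linarith
  have hcoc : Coc (A ∪ B ∪ sphere (0 : ℂ) R) g := by
    intro x hx
    by_cases hx' : x ∈ Bᶜ ∪ A
    · obtain ⟨U, hU, h1⟩ := gA x hx'
      refine ⟨U, hU, fun a ha b hb c hc => ?_⟩
      rw [h1 a ha.1 b hb.1, h1 b hb.1 c hc.1, h1 a ha.1 c hc.1, add_zero]
    · rw [mem_union, not_or, mem_compl_iff, not_not] at hx'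
      have hxS : x ∉ sphere (0 : ℂ) R := fun h => hsB x h (Or.inr hx'.1)
      refine ⟨Aᶜ ∩ (sphere (0 : ℂ) R)ᶜ, inter_mem (hA.isClosed.isOpen_compl.mem_nhds hx'.2)
        (isClosed_sphere.isOpen_compl.mem_nhds hxS), ?_⟩
      have hin : ∀ a ∈ (Aᶜ ∩ (sphere (0 : ℂ) R)ᶜ) ∩ (A ∪ B ∪ sphere (0 : ℂ) R), a ∈ B := by
        rintro a ⟨⟨ha1, ha2⟩, (ha | ha) | ha⟩
        · exact absurd ha ha1
        · exact ha
        · exact absurd ha ha2
      intro a ha b hb c hc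
      rw [gB a (hin a ha) b (hin b hb), gB b (hin b hb) c (hin c hc), gB a (hin a ha) c (hin c hc)]
      have e : ∀ u v w : ZMod 2, (u + v) + (v + w) = u + w := by decide
      exact e _ _ _
  have hcobS : Cob (sphere (0 : ℂ) R) g := by
    refine (Cob.zero (sphere (0 : ℂ) R)).of_eqOn ?_
    intro a ha b _
    exact (g0 a b (Or.inl fun h => hsB a ha (Or.inr h))).symm
  have hncob : ¬ Cob (A ∪ B) g := by
    rintro ⟨r, hr⟩
    have h1 : LCob A g (fun _ => 0) := by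
      intro x hx
      obtain ⟨U, hU, h⟩ := gA x (Or.inr hx)
      exact ⟨U, hU, fun a ha b hb => by rw [h a ha.1 b hb.1, add_zero]⟩
    have h2 : LCob B g t := fun x _ => ⟨univ, univ_mem, fun a ha b hb => gB a ha.2 b hb.2⟩
    obtain ⟨c, hc⟩ := (hr.mono subset_union_left).const h1 hAc
    obtain ⟨c', hc'⟩ := (hr.mono subset_union_right).const h2 hBc
    obtain ⟨p, hp⟩ := hne₁
    obtain ⟨q, hq⟩ := hne₂
    have e1 := hc p hp.1.1
    have e2 := hc' p hp.1.2
    have e3 := hc q hq.1.1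
    have e4 := hc' q hq.1.2
    rw [t1 p (hP hp)] at e2
    rw [t2 q (hQ hq)] at e4
    have e : ∀ a b c c' : ZMod 2, a + 0 = c → a + 0 = c' → b + 0 = c → b + 1 = c' → False := by
      decide
    exact e _ _ _ _ e1 e2 e3 e4
  have hdis := disconn hYc hR0 subset_union_right
    (union_subset (hR.trans ball_subset_closedBall) sphere_subset_closedBall) hcoc hcobS
    (fun h => hncob (h.mono subset_union_left))
  have hex : ∃ p ∈ ball (0 : ℂ) R \ (A ∪ B ∪ sphere 0 R), ∃ q ∈ ball (0 : ℂ) R \ (A ∪ B ∪ sphere 0 R),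
      ¬ Cob (A ∪ B ∪ sphere (0 : ℂ) R) (th p + th q) := by
    by_contra hno
    push Not at hno
    exact hdis (conn_of_cob hYc subset_union_right
      (union_subset (hR.trans ball_subset_closedBall) sphere_subset_closedBall) hno)
  obtain ⟨p, hp, q, hq, hpq⟩ := hex
  have hpK : p ∉ A ∪ B := fun h => hp.2 (Or.inl h)
  have hqK : q ∉ A ∪ B := fun h => hq.2 (Or.inl h)
  have hcomp : q ∉ connectedComponentIn (A ∪ B)ᶜ p := by
    intro h
    apply hpq
    refine glueCob_conn hK.isClosed isClosed_sphere ?_ (th_same hK h) (th_sphere hp.1 hq.1) ?_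
    · refine ((th_coc p).mono ?_).add ((th_coc q).mono ?_)
      · intro x hx hxp
        rw [mem_singleton_iff.1 hxp] at hx
        exact hp.2 hx
      · intro x hx hxq
        rw [mem_singleton_iff.1 hxq] at hx
        exact hq.2 hx
    · have : (A ∪ B) ∩ sphere (0 : ℂ) R = ∅ := by
        ext x
        simp only [mem_inter_iff, mem_empty_iff_false, iff_false, not_and]
        exact fun h1 h2 => hsB x h2 h1
      rw [this]
      exact isPreconnected_empty
  have hfin : ∀ x, x ∉ A ∪ B → Bornology.IsBounded (connectedComponentIn (A ∪ B)ᶜ x) →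
      ∃ W : Set ℂ, IsOpen W ∧ W.Nonempty ∧ Bornology.IsBounded W ∧ frontier W ⊆ A ∪ B := by
    intro x hx hb
    have ho := comp_isOpen surf_complex hK.isClosed x
    refine ⟨connectedComponentIn (A ∪ B)ᶜ x, ho, ⟨x, mem_connectedComponentIn hx⟩, hb, ?_⟩
    intro y hy
    rw [ho.frontier_eq] at hy
    exact (comp_closure surf_complex hK.isClosed x hy.1).resolve_left hy.2
  rcases jan_comp hK hpK hqK hcomp with h | h
  · exact hfin p hpK h
  · exact hfin q hqK h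

end Pool.Agent.H29.CWA
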