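import Pool.Agent.H29.CWA.Hole
import Pool.Agent.H29.CWA.Jan

/-!
# MP_c830f0_an, ARC-12: local continua are dendrites (note 2967, A1, A5)

`im_kleinen`: `isolated0` (there is `κ ≤ c` with `Cs f κ e ∩ Cu f c e = {e}`: finiteness), `a = min κ (ε/2)` (`≤ c/4`), `δ = δ(a)` of `LPS` (symmetric in `dist`):
`v ∈ Cs f a e ∩ Cu f a z` is in `Cu f (c/2 + a) e ⊆ Cu f c e` (`Cs_trans` for `f.symm`), so `v = e`, `e ∈ Cu f a z`, `z ∈ Cu f (2 a) e` (`Cs_comm_two`).
`hu_cu`: `ε₀`, `c₁` of `no_hole`; charts `e` with `range e` of diameter `< ε₀` (`Surf` with `V = ball x (ε₀/3)`) and Lebesgue number: for small `c'` and every `x` there is a chart with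
`closedBall x c' ⊆ range e`; `A' = e ⁻¹' A`, `B' = e ⁻¹' B` compact, preconnected (`e` is an embedding, `A, B ⊆ range e`: `IsInducing.isPreconnected_image`);
`janiszewski` gives `W'`, `W = e '' W'` open, nonempty, `frontier W ⊆ e '' frontier W' ⊆ A ∪ B` (`closure W' ` is compact, so `e '' closure W'` is closed).  `no_hole`.
`den_cu`: `c₂ = c₁ / 4` with `c₁ ≤ c/4` of `hu_cu`: `K = Cu f a x`, `N = K ∩ Cu f ε' y`, `ε' = min ε (c₁/4)`, both in `Cu f c₁ x`; `im_kleinen` at `y` (`K ⊆ Cu f (2 a) y ⊆ Cu f (c/2) y`).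
-/

set_option autoImplicit false

namespace Pool.Agent.H29.CWA

open Set Filter Topology Metric
open Pool.Agent.H61.PO (IsArc Surf)
open Pool.Agent.H29.CW

variable {S : Type*} [MetricSpace S] [CompactSpace S] {f : S ≃ₜ S} {c : ℝ}

theorem isolated0 (H : Hyp0 f c) (e : S) : ∃ κ : ℝ, 0 < κ ∧ κ ≤ c ∧
    ∀ k, 0 < k → k ≤ κ → Cs f k e ∩ Cu f c e = {e} := by
  have hfin : ((Cs f c e ∩ Cu f c e) \ {e}).Finite := (H.fin e).subset sdiff_subset
  have hopen : IsOpen (((Cs f c e ∩ Cu f c e) \ {e})ᶜ) := hfin.isClosed.isOpen_compl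
  have hmem : e ∈ ((Cs f c e ∩ Cu f c e) \ {e})ᶜ := fun h => h.2 rfl
  obtain ⟨r, hr, hball⟩ := Metric.isOpen_iff.mp hopen e hmem
  refine ⟨min c (r / 2), lt_min H.pos (by linarith), min_le_left _ _, fun k hk hkκ => ?_⟩
  have hkc : k ≤ c := hkκ.trans (min_le_left _ _)
  have hkr : k ≤ r / 2 := hkκ.trans (min_le_right _ _)
  apply Subset.antisymm
  · rintro y ⟨hy1, hy2⟩
    by_contra hne
    have hd : dist y e ≤ k := Cs_dist hy1
    have hb : y ∈ ball e r := by
      rw [mem_ball]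
      linarith
    exact hball hb ⟨⟨Cs_mono hk.le hkc hy1, hy2⟩, hne⟩
  · rintro y hy
    rw [mem_singleton_iff] at hy
    subst hy
    exact ⟨mem_Cs_self hk.le, mem_Cs_self (f := f.symm) H.pos.le⟩

theorem im_kleinen (H : Hyp0 f c) {ε : ℝ} (hε : 0 < ε) (hεc : ε ≤ c / 2) (e : S) :
    ∃ δ : ℝ, 0 < δ ∧ ∀ z ∈ Cu f (c / 2) e, dist z e < δ → z ∈ Cu f ε e := by
  obtain ⟨κ, hκ, _, hiso⟩ := isolated0 H e
  have ha : 0 < min κ (ε / 2) := lt_min hκ (by linarith)
  obtain ⟨δ, hδ, hlps⟩ := H.lps (min κ (ε / 2)) ha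
  refine ⟨δ, hδ, fun z hz hd => ?_⟩
  rw [dist_comm] at hd
  obtain ⟨v, hv1, hv2⟩ := hlps e z hd
  have haε : min κ (ε / 2) ≤ ε / 2 := min_le_right _ _
  have hc := H.pos
  have hv3 : v ∈ Cu f c e := by
    have h1 : v ∈ Cs f.symm (c / 2 + min κ (ε / 2)) e :=
      Cs_trans (by linarith) ha.le hz hv2
    exact Cs_mono (f := f.symm) (by linarith) (by linarith) h1
  have hve : v ∈ Cs f (min κ (ε / 2)) e ∩ Cu f c e := ⟨hv1, hv3⟩
  rw [hiso _ ha (min_le_left _ _), mem_singleton_iff] at hve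
  subst hve
  have h2 : z ∈ Cs f.symm (2 * min κ (ε / 2)) v := Cs_comm_two (f := f.symm) ha.le hv2
  exact Cs_mono (f := f.symm) (by linarith) (by linarith) h2

theorem hu_cu (H : Hyp0 f c) (hM : Surf S) [ConnectedSpace S] : ∃ c₁ : ℝ, 0 < c₁ ∧ c₁ ≤ c / 4 ∧
    ∀ x, HU (Cu f c₁ x) := by
  obtain ⟨ε₀, c₁, hε₀, hc₁, hole⟩ := no_hole H hM
  choose e he he0 her using fun x : S => hM x (ball x (ε₀ / 3)) (ball_mem_nhds x (by linarith))
  obtain ⟨δ, hδ, hleb⟩ := lebesgue_number_lemma_of_metric (s := (univ : Set S))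
    (c := fun x : S => range (e x)) isCompact_univ (fun x => (he x).isOpen_range)
    (fun x _ => mem_iUnion.mpr ⟨x, ⟨0, he0 x⟩⟩)
  have hcpos := H.pos
  refine ⟨min (min c₁ (c / 4)) (δ / 2), lt_min (lt_min hc₁ (by linarith)) (by linarith),
    (min_le_left _ _).trans (min_le_right _ _), fun x A B hAK hBK hA hB => ?_⟩
  set c' : ℝ := min (min c₁ (c / 4)) (δ / 2) with hc'
  have hc'0 : 0 < c' := lt_min (lt_min hc₁ (by linarith)) (by linarith)
  have hc'1 : c' ≤ c₁ := (min_le_left _ _).trans (min_le_left _ _)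
  have hc'δ : c' ≤ δ / 2 := min_le_right _ _
  obtain ⟨i, hi⟩ := hleb x (mem_univ x)
  have hKr : Cu f c' x ⊆ range (e i) := by
    intro y hy
    have h1 : dist y x ≤ c' := Cs_dist (f := f.symm) hy
    exact hi (by rw [mem_ball]; linarith)
  have hEmb : IsEmbedding (e i) := (he i).isEmbedding
  have hAr : A ⊆ range (e i) := hAK.trans hKr
  have hBr : B ⊆ range (e i) := hBK.trans hKr
  have hAi : e i '' (e i ⁻¹' A) = A := by
    rw [image_preimage_eq_inter_range, inter_eq_left]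
    exact hAr
  have hBi : e i '' (e i ⁻¹' B) = B := by
    rw [image_preimage_eq_inter_range, inter_eq_left]
    exact hBr
  have hABi : e i '' (e i ⁻¹' A ∩ e i ⁻¹' B) = A ∩ B := by
    rw [image_inter hEmb.injective, hAi, hBi]
  have hAc : IsCompact (e i ⁻¹' A) := by
    rw [hEmb.isCompact_iff, hAi]
    exact hA.1.isCompact
  have hBc : IsCompact (e i ⁻¹' B) := by
    rw [hEmb.isCompact_iff, hBi]
    exact hB.1.isCompact
  have hAp : IsPreconnected (e i ⁻¹' A) := by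
    rw [← hEmb.isInducing.isPreconnected_image, hAi]
    exact hA.2
  have hBp : IsPreconnected (e i ⁻¹' B) := by
    rw [← hEmb.isInducing.isPreconnected_image, hBi]
    exact hB.2
  by_contra hcon
  have hcon' : ¬ IsPreconnected (e i ⁻¹' A ∩ e i ⁻¹' B) := by
    rw [← hEmb.isInducing.isPreconnected_image, hABi]
    exact hcon
  obtain ⟨W', hW'o, hW'n, hW'b, hW'f⟩ := janiszewski hAc hBc hAp hBp hcon'
  refine hole x (e i '' W') ((he i).isOpenMap _ hW'o) (hW'n.image _) ?_ ?_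
  · rintro _ ⟨y, _, rfl⟩ _ ⟨z, _, rfl⟩
    have h1 : e i y ∈ ball i (ε₀ / 3) := her i ⟨y, rfl⟩
    have h2 : e i z ∈ ball i (ε₀ / 3) := her i ⟨z, rfl⟩
    rw [mem_ball] at h1 h2
    have h3 := dist_triangle_right (e i y) (e i z) i
    linarith
  · have hcomp : IsCompact (closure W') := hW'b.isCompact_closure
    have hclosed : IsClosed (e i '' closure W') :=
      (hcomp.image (he i).continuous).isClosed
    have hcl : closure (e i '' W') ⊆ e i '' closure W' :=
      closure_minimal (image_mono subset_closure) hclosed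
    intro y hy
    have hy1 : y ∈ closure (e i '' W') := frontier_subset_closure hy
    obtain ⟨w, hw, rfl⟩ := hcl hy1
    have hwn : w ∉ W' := by
      intro hwW
      have h4 : e i w ∈ interior (e i '' W') := by
        rw [((he i).isOpenMap _ hW'o).interior_eq]
        exact mem_image_of_mem _ hwW
      exact hy.2 h4
    have hwf : w ∈ frontier W' := ⟨hw, fun h => hwn (interior_subset h)⟩
    rcases hW'f hwf with h5 | h5
    · exact Cs_mono (f := f.symm) hc'0.le hc'1 (hAK h5)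
    · exact Cs_mono (f := f.symm) hc'0.le hc'1 (hBK h5)

theorem den_cu (H : Hyp0 f c) (hM : Surf S) [ConnectedSpace S] : ∃ c₂ : ℝ, 0 < c₂ ∧ c₂ ≤ c / 16 ∧
    ∀ a, 0 < a → a ≤ c₂ → ∀ x, Den (Cu f a x) := by
  obtain ⟨c₁, hc₁, hc₁c, hHU⟩ := hu_cu H hM
  refine ⟨c₁ / 4, by linarith, by linarith, fun a ha hac x => ?_⟩
  have hc := H.pos
  have hKc : Cu f a x ⊆ Cu f c₁ x := Cs_mono (f := f.symm) ha.le (by linarith)
  refine ⟨(Cs_closed (f := f.symm)).isCompact, Cs_preconn (f := f.symm), ?_, ?_⟩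
  · intro y hy ε hε
    have hε' : 0 < min ε (c₁ / 4) := lt_min hε (by linarith)
    have hε'1 : min ε (c₁ / 4) ≤ ε := min_le_left _ _
    have hε'2 : min ε (c₁ / 4) ≤ c₁ / 4 := min_le_right _ _
    obtain ⟨δ, hδ, him⟩ := im_kleinen H hε' (by linarith) y
    refine ⟨δ, hδ, fun z hz hd => ?_⟩
    have hNc : Cu f (min ε (c₁ / 4)) y ⊆ Cu f c₁ x := by
      intro w hw
      have h1 : w ∈ Cs f.symm (a + min ε (c₁ / 4)) x := Cs_trans ha.le hε'.le hy hw
      exact Cs_mono (f := f.symm) (by linarith) (by linarith) h1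
    refine ⟨Cu f a x ∩ Cu f (min ε (c₁ / 4)) y, inter_subset_left, ⟨?_, ?_⟩, ⟨hy, ?_⟩, ⟨hz, ?_⟩, ?_⟩
    · exact (Cs_closed (f := f.symm)).inter (Cs_closed (f := f.symm))
    · exact hHU x _ _ hKc hNc ⟨Cs_closed (f := f.symm), Cs_preconn (f := f.symm)⟩
        ⟨Cs_closed (f := f.symm), Cs_preconn (f := f.symm)⟩
    · exact mem_Cs_self (f := f.symm) hε'.le
    · have h2 : Cu f a x ⊆ Cs f.symm (2 * a) y :=
        sub_Cs_two (f := f.symm) (Cs_preconn (f := f.symm)) hy Subset.rfl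
      exact him z (Cs_mono (f := f.symm) (by linarith) (by linarith) (h2 hz)) hd
    · rintro w ⟨_, hw⟩
      exact (Cs_dist (f := f.symm) hw).trans hε'1
  · intro A B hA hB hA' hB'
    exact hHU x A B (hA.trans hKc) (hB.trans hKc) hA' hB'

end Pool.Agent.H29.CWA
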