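import Pool.Agent.H29.CWA.Nondeg

/-!
# MP_c830f0_an, ARC-15: local product structure in sectors (note 2967, A9, end)

`meet`: `a` small: `ball e (3 a) ⊆ D`, `a ≤ c/16`; `δ = δ(a)` of `LPS`.  `x ∈ Q`, `dist x e < min a (δ/2)`, `x ∉ Cs f (c/2) e` (`int_empty H.symm`; `Q ∩ ball` is open and nonempty), `y ∈ X`,
`dist y e < min a (δ/2)`, `y ∉ Cu f (c/2) e` (`int_empty H`).  As in `CW.cross` (`Pool/Agent/H29/CW/T.lean`): `Cs f a x` misses `Ts`, so is contained in `Q`; `Cu f a y` misses `Tu`, so `⊆ X`; `LPS`.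
`cross0`: the same proof as `CW.cross` with `int_empty`.
-/

set_option autoImplicit false

namespace Pool.Agent.H29.CWA

open Set Filter Topology Metric
open Pool.Agent.H61.PO (IsArc Surf)
open Pool.Agent.H29.CW

variable {S : Type*} [MetricSpace S] [CompactSpace S] {f : S ≃ₜ S} {c : ℝ}

/-- a point of `V` near `e` whose small unstable continuum is contained in `V` -/
private theorem side_point (H : Hyp0 f c) (hM : Surf S) [ConnectedSpace S] {e : S}
    {D τ V W : Set S} (hτ : τ ⊆ Cu f (c / 8) e) (hV : IsOpen V) (hW : IsOpen W)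
    (hVW : Disjoint V W) (hu : V ∪ W = D \ τ) (heV : e ∈ closure V) {b δ : ℝ} (hb : 0 < b)
    (hbc : b ≤ c / 16) (hbD : ball e (3 * b) ⊆ D) (hδ : 0 < δ) :
    ∃ z ∈ V, dist z e < δ ∧ Cu f b z ⊆ V := by
  have hc := H.pos
  have hint : interior (Cu f (c / 2) e) = ∅ := int_empty H hM e
  obtain ⟨z, hzV, hze, hzn⟩ : ∃ z ∈ V, dist z e < min δ b ∧ z ∉ Cu f (c / 2) e := by
    by_contra hcon
    push Not at hcon
    obtain ⟨w, hw1, hw2⟩ := Metric.mem_closure_iff.mp heV (min δ b) (lt_min hδ hb)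
    have hsub : V ∩ ball e (min δ b) ⊆ Cu f (c / 2) e := fun z hz => hcon z hz.1 hz.2
    have h1 : V ∩ ball e (min δ b) ⊆ interior (Cu f (c / 2) e) :=
      interior_maximal hsub (hV.inter isOpen_ball)
    rw [hint] at h1
    exact h1 ⟨hw1, by rw [mem_ball, dist_comm]; exact hw2⟩
  have hzb : dist z e < b := hze.trans_le (min_le_right _ _)
  have hmiss : ∀ v ∈ Cu f b z, v ∉ τ := by
    intro v hv hvτ
    apply hzn
    have h1 : z ∈ Cs f.symm (2 * b) v := Cs_comm_two (f := f.symm) hb.le hv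
    have h2 : z ∈ Cs f.symm (c / 8 + 2 * b) e :=
      Cs_trans (f := f.symm) (by linarith) (by linarith) (hτ hvτ) h1
    exact Cs_mono (f := f.symm) (by linarith) (by linarith) h2
  have hD' : Cu f b z ⊆ V ∪ W := by
    intro v hv
    rw [hu]
    refine ⟨hbD ?_, hmiss v hv⟩
    rw [mem_ball]
    have h1 : dist v z ≤ b := Cs_dist (f := f.symm) hv
    have h2 := dist_triangle v z e
    linarith
  have hzz : z ∈ Cu f b z := mem_Cs_self (f := f.symm) hb.le
  exact ⟨z, hzV, hze.trans_le (min_le_left _ _),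
    IsPreconnected.subset_left_of_subset_union hV hW hVW hD' ⟨z, hzz, hzV⟩
      (Cs_preconn (f := f.symm))⟩

theorem cross0 (H : Hyp0 f c) (hM : Surf S) [ConnectedSpace S] {e : S} {D τ V W : Set S}
    (hD : IsOpen D) (heD : e ∈ D) (hτ : τ ⊆ Cu f (c / 8) e) (hV : IsOpen V) (hW : IsOpen W)
    (hVW : Disjoint V W) (hu : V ∪ W = D \ τ) (heV : e ∈ closure V) {a : ℝ} (ha : 0 < a) :
    (Cs f a e ∩ V).Nonempty := by
  have hc := H.pos
  obtain ⟨r, hr, hrD⟩ := Metric.isOpen_iff.mp hD e heD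
  obtain ⟨b, hb, hba, hbc, hbr⟩ : ∃ b : ℝ, 0 < b ∧ b ≤ a ∧ b ≤ c / 16 ∧ b ≤ r / 3 :=
    ⟨min a (min (c / 16) (r / 3)), lt_min ha (lt_min (by linarith) (by linarith)),
      min_le_left _ _, (min_le_right _ _).trans (min_le_left _ _),
      (min_le_right _ _).trans (min_le_right _ _)⟩
  obtain ⟨δ, hδ, hLPS⟩ := H.lps b hb
  obtain ⟨z, -, hze, hz⟩ := side_point H hM hτ hV hW hVW hu heV hb hbc
    ((ball_subset_ball (by linarith)).trans hrD) hδ
  obtain ⟨y, hy1, hy2⟩ := hLPS e z (by rw [dist_comm]; exact hze)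
  exact ⟨y, Cs_mono hb.le hba hy1, hz hy2⟩

theorem meet (H : Hyp0 f c) (hM : Surf S) [ConnectedSpace S] {e : S} {D Tu Ts X X' Q Q' : Set S}
    (hD : IsOpen D) (heD : e ∈ D) (hTu : Tu ⊆ Cu f (c / 8) e) (hTs : Ts ⊆ Cs f (c / 8) e)
    (hX : IsOpen X) (hX' : IsOpen X') (hXX : Disjoint X X') (hXu : X ∪ X' = D \ Tu)
    (hQ : IsOpen Q) (hQ' : IsOpen Q') (hQQ : Disjoint Q Q') (hQu : Q ∪ Q' = D \ Ts)
    (heX : e ∈ closure X) (heQ : e ∈ closure Q) : (X ∩ Q).Nonempty := by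
  have hc := H.pos
  obtain ⟨r, hr, hrD⟩ := Metric.isOpen_iff.mp hD e heD
  obtain ⟨b, hb, hbc, hbr⟩ : ∃ b : ℝ, 0 < b ∧ b ≤ c / 16 ∧ b ≤ r / 3 :=
    ⟨min (c / 16) (r / 3), lt_min (by linarith) (by linarith), min_le_left _ _, min_le_right _ _⟩
  obtain ⟨δ, hδ, hLPS⟩ := H.lps b hb
  have hbD : ball e (3 * b) ⊆ D := (ball_subset_ball (by linarith)).trans hrD
  obtain ⟨y, -, hye, hy⟩ := side_point H hM hTu hX hX' hXX hXu heX hb hbc hbD (half_pos hδ)
  obtain ⟨x, -, hxe, hx⟩ := side_point (f := f.symm) H.symm hM hTs hQ hQ' hQQ hQu heQ hb hbc hbD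
    (half_pos hδ)
  have hxy : dist x y < δ := by
    have h1 := dist_triangle_right x y e
    linarith
  obtain ⟨v, hv1, hv2⟩ := hLPS x y hxy
  exact ⟨v, hy hv2, hx hv1⟩

end Pool.Agent.H29.CWA
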