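import Pool.Agent.H29.CWA.Star

/-!
# MP_c830f0_an, ARC-14: the three sectors of a triod (note 2967, A9; see the doc comment of `Star.lean`)
-/

set_option autoImplicit false

namespace Pool.Agent.H29.CWA

open Set Filter Topology Metric
open Pool.Agent.H61.PO (IsArc Surf)
open Pool.Agent.H29.CW

/-- in a crosscut decomposition we may assume that a given connected set is on the second side -/
theorem cross_pick {X : Type*} [TopologicalSpace X] {D a b C : Set X}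
    (h : ∃ V W : Set X, IsOpen V ∧ IsOpen W ∧ IsPreconnected V ∧ IsPreconnected W ∧
        Disjoint V W ∧ V ∪ W = D \ (a ∪ b) ∧ a ∪ b ⊆ closure V ∧ a ∪ b ⊆ closure W)
    (hC : IsPreconnected C) (hs : C ⊆ D \ (a ∪ b)) :
    ∃ V W : Set X, IsOpen V ∧ IsOpen W ∧ IsPreconnected V ∧ IsPreconnected W ∧
        Disjoint V W ∧ V ∪ W = D \ (a ∪ b) ∧ a ∪ b ⊆ closure V ∧ a ∪ b ⊆ closure W ∧ C ⊆ W := by
  obtain ⟨V, W, hV, hW, hVc, hWc, hd, hu, h1, h2⟩ := h
  rw [← hu] at hs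
  rcases IsPreconnected.subset_or_subset hV hW hd hs hC with h3 | h3
  · exact ⟨W, V, hW, hV, hWc, hVc, hd.symm, by rw [union_comm]; exact hu, h2, h1, h3⟩
  · exact ⟨V, W, hV, hW, hVc, hWc, hd, hu, h1, h2, h3⟩

/-- three prongs, formal part -/
theorem sectors_core {X : Type*} [TopologicalSpace X] {D : Set X} {e : X} {τ : Fin 3 → Set X}
    (hτ : ∀ i, τ i ⊆ D ∧ e ∈ τ i ∧ (τ i).Nontrivial ∧ IsPreconnected (τ i \ {e}) ∧
      IsOpen (D \ τ i))
    (hi : ∀ i j, i ≠ j → τ i ∩ τ j ⊆ {e})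
    (hc : ∀ i j, i ≠ j → ∃ V W : Set X, IsOpen V ∧ IsOpen W ∧ IsPreconnected V ∧
      IsPreconnected W ∧ Disjoint V W ∧ V ∪ W = D \ (τ i ∪ τ j) ∧ τ i ∪ τ j ⊆ closure V ∧
        τ i ∪ τ j ⊆ closure W) :
    ∃ (A W : Fin 3 → Set X), (∀ k, IsOpen (A k)) ∧ (∀ k, IsOpen (W k)) ∧
      (∀ k, Disjoint (A k) (W k)) ∧ (∀ k, A k ∪ W k = D \ (τ 0 ∪ τ 1 ∪ τ 2)) ∧
      (∀ k, e ∈ closure (A k)) ∧ ∀ k l, k ≠ l → Disjoint (A k) (A l) := by
  have h01 : (0 : Fin 3) ≠ 1 := by decide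
  have h02 : (0 : Fin 3) ≠ 2 := by decide
  have h12 : (1 : Fin 3) ≠ 2 := by decide
  obtain ⟨hD0, he0, hn0, hp0, ho0⟩ := hτ 0
  obtain ⟨hD1, he1, hn1, hp1, ho1⟩ := hτ 1
  obtain ⟨hD2, he2, hn2, hp2, ho2⟩ := hτ 2
  have i01 := hi 0 1 h01
  have i02 := hi 0 2 h02
  have i12 := hi 1 2 h12
  -- `τ 2 \ {e}` on the second side of `τ 0 ∪ τ 1`; the first side is `Z`
  have hs2 : τ 2 \ {e} ⊆ D \ (τ 0 ∪ τ 1) := by
    rintro x ⟨hx, hxe⟩
    refine ⟨hD2 hx, ?_⟩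
    rintro (h | h)
    · exact hxe (i02 ⟨h, hx⟩)
    · exact hxe (i12 ⟨h, hx⟩)
  obtain ⟨Z, Y, hZ, hY, hZc, hYc, hZY, hZYu, hZcl, hYcl, hτY⟩ :=
    cross_pick (hc 0 1 h01) hp2 hs2
  have hZ2 : ∀ x ∈ Z, x ∉ τ 2 := by
    intro x hx hx2
    have hxe : x ≠ e := by
      rintro rfl
      have h3 : x ∈ D \ (τ 0 ∪ τ 1) := by
        rw [← hZYu]
        exact Or.inl hx
      exact h3.2 (Or.inl he0)
    exact Set.disjoint_left.mp hZY hx (hτY ⟨hx2, hxe⟩)
  have hZD : Z ⊆ D \ (τ 0 ∪ τ 1) := by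
    rw [← hZYu]
    exact subset_union_left
  have hs02 : Z ⊆ D \ (τ 0 ∪ τ 2) := by
    intro x hx
    refine ⟨(hZD hx).1, ?_⟩
    rintro (h | h)
    · exact (hZD hx).2 (Or.inl h)
    · exact hZ2 x hx h
  have hs12 : Z ⊆ D \ (τ 1 ∪ τ 2) := by
    intro x hx
    refine ⟨(hZD hx).1, ?_⟩
    rintro (h | h)
    · exact (hZD hx).2 (Or.inr h)
    · exact hZ2 x hx h
  obtain ⟨A, A', hA, hA', hAc, hAc', hAA, hAu, hAcl, hAcl', hZA⟩ :=
    cross_pick (hc 0 2 h02) hZc hs02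
  obtain ⟨B, B', hB, hB', hBc, hBc', hBB, hBu, hBcl, hBcl', hZB⟩ :=
    cross_pick (hc 1 2 h12) hZc hs12
  have hA1 : ∀ x ∈ A, x ∉ τ 1 := by
    intro x hx hx1
    have h1 : x ∈ closure A' := closure_mono hZA (hZcl (Or.inr hx1))
    exact Set.disjoint_left.mp (hAA.closure_right hA) hx h1
  have hB0 : ∀ x ∈ B, x ∉ τ 0 := by
    intro x hx hx1
    have h1 : x ∈ closure B' := closure_mono hZB (hZcl (Or.inl hx1))
    exact Set.disjoint_left.mp (hBB.closure_right hB) hx h1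
  have hAD : A ⊆ D \ (τ 0 ∪ τ 2) := by
    rw [← hAu]
    exact subset_union_left
  have hBD : B ⊆ D \ (τ 1 ∪ τ 2) := by
    rw [← hBu]
    exact subset_union_left
  have hAB : Disjoint A B := by
    rw [Set.disjoint_left]
    intro x hxA hxB
    have h1 : A ⊆ B := by
      refine IsPreconnected.subset_left_of_subset_union hB hB' hBB ?_ ⟨x, hxA, hxB⟩ hAc
      intro y hy
      rw [hBu]
      refine ⟨(hAD hy).1, ?_⟩
      rintro (h | h)
      · exact hA1 y hy h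
      · exact (hAD hy).2 (Or.inr h)
    have h2 : B ⊆ A := by
      refine IsPreconnected.subset_left_of_subset_union hA hA' hAA ?_ ⟨x, hxB, hxA⟩ hBc
      intro y hy
      rw [hAu]
      refine ⟨(hBD hy).1, ?_⟩
      rintro (h | h)
      · exact hB0 y hy h
      · exact (hBD hy).2 (Or.inr h)
    obtain ⟨y, hy, hye⟩ := hn1.exists_ne e
    have h3 : y ∈ A ∪ A' := by
      rw [hAu]
      refine ⟨hD1 hy, ?_⟩
      rintro (h | h)
      · exact hye (i01 ⟨h, hy⟩)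
      · exact hye (i12 ⟨hy, h⟩)
    have h4 : y ∈ A' := h3.resolve_left fun h => hA1 y h hy
    have h5 : y ∈ closure A := closure_mono h2 (hBcl (Or.inl hy))
    exact Set.disjoint_left.mp (hAA.closure_left hA') h5 h4
  have hAZ : Disjoint A Z := hAA.mono_right hZA
  have hBZ : Disjoint B Z := hBB.mono_right hZB
  have oA : IsOpen (A' \ τ 1) := by
    have h1 : A' \ τ 1 = A' ∩ (D \ τ 1) := by
      ext x
      constructor
      · rintro ⟨h1, h2⟩
        have h3 : x ∈ D \ (τ 0 ∪ τ 2) := by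
          rw [← hAu]
          exact Or.inr h1
        exact ⟨h1, h3.1, h2⟩
      · rintro ⟨h1, h2⟩
        exact ⟨h1, h2.2⟩
    rw [h1]
    exact hA'.inter ho1
  have oB : IsOpen (B' \ τ 0) := by
    have h1 : B' \ τ 0 = B' ∩ (D \ τ 0) := by
      ext x
      constructor
      · rintro ⟨h1, h2⟩
        have h3 : x ∈ D \ (τ 1 ∪ τ 2) := by
          rw [← hBu]
          exact Or.inr h1
        exact ⟨h1, h3.1, h2⟩
      · rintro ⟨h1, h2⟩
        exact ⟨h1, h2.2⟩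
    rw [h1]
    exact hB'.inter ho0
  have oY : IsOpen (Y \ τ 2) := by
    have h1 : Y \ τ 2 = Y ∩ (D \ τ 2) := by
      ext x
      constructor
      · rintro ⟨h1, h2⟩
        have h3 : x ∈ D \ (τ 0 ∪ τ 1) := by
          rw [← hZYu]
          exact Or.inr h1
        exact ⟨h1, h3.1, h2⟩
      · rintro ⟨h1, h2⟩
        exact ⟨h1, h2.2⟩
    rw [h1]
    exact hY.inter ho2
  have uA : A ∪ (A' \ τ 1) = D \ (τ 0 ∪ τ 1 ∪ τ 2) := by
    ext x
    constructor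
    · rintro (h | ⟨h, h'⟩)
      · refine ⟨(hAD h).1, ?_⟩
        rintro ((h1 | h1) | h1)
        · exact (hAD h).2 (Or.inl h1)
        · exact hA1 x h h1
        · exact (hAD h).2 (Or.inr h1)
      · have h3 : x ∈ D \ (τ 0 ∪ τ 2) := by
          rw [← hAu]
          exact Or.inr h
        refine ⟨h3.1, ?_⟩
        rintro ((h1 | h1) | h1)
        · exact h3.2 (Or.inl h1)
        · exact h' h1
        · exact h3.2 (Or.inr h1)
    · rintro ⟨h, h'⟩
      have h3 : x ∈ A ∪ A' := by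
        rw [hAu]
        refine ⟨h, ?_⟩
        rintro (h1 | h1)
        · exact h' (Or.inl (Or.inl h1))
        · exact h' (Or.inr h1)
      rcases h3 with h3 | h3
      · exact Or.inl h3
      · exact Or.inr ⟨h3, fun h1 => h' (Or.inl (Or.inr h1))⟩
  have uB : B ∪ (B' \ τ 0) = D \ (τ 0 ∪ τ 1 ∪ τ 2) := by
    ext x
    constructor
    · rintro (h | ⟨h, h'⟩)
      · refine ⟨(hBD h).1, ?_⟩
        rintro ((h1 | h1) | h1)
        · exact hB0 x h h1
        · exact (hBD h).2 (Or.inl h1)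
        · exact (hBD h).2 (Or.inr h1)
      · have h3 : x ∈ D \ (τ 1 ∪ τ 2) := by
          rw [← hBu]
          exact Or.inr h
        refine ⟨h3.1, ?_⟩
        rintro ((h1 | h1) | h1)
        · exact h' h1
        · exact h3.2 (Or.inl h1)
        · exact h3.2 (Or.inr h1)
    · rintro ⟨h, h'⟩
      have h3 : x ∈ B ∪ B' := by
        rw [hBu]
        refine ⟨h, ?_⟩
        rintro (h1 | h1)
        · exact h' (Or.inl (Or.inr h1))
        · exact h' (Or.inr h1)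
      rcases h3 with h3 | h3
      · exact Or.inl h3
      · exact Or.inr ⟨h3, fun h1 => h' (Or.inl (Or.inl h1))⟩
  have uZ : Z ∪ (Y \ τ 2) = D \ (τ 0 ∪ τ 1 ∪ τ 2) := by
    ext x
    constructor
    · rintro (h | ⟨h, h'⟩)
      · refine ⟨(hZD h).1, ?_⟩
        rintro (h1 | h1)
        · exact (hZD h).2 h1
        · exact hZ2 x h h1
      · have h3 : x ∈ D \ (τ 0 ∪ τ 1) := by
          rw [← hZYu]
          exact Or.inr h
        refine ⟨h3.1, ?_⟩
        rintro (h1 | h1)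
        · exact h3.2 h1
        · exact h' h1
    · rintro ⟨h, h'⟩
      have h3 : x ∈ Z ∪ Y := by
        rw [hZYu]
        exact ⟨h, fun h1 => h' (Or.inl h1)⟩
      rcases h3 with h3 | h3
      · exact Or.inl h3
      · exact Or.inr ⟨h3, fun h1 => h' (Or.inr h1)⟩
  refine ⟨![A, B, Z], ![A' \ τ 1, B' \ τ 0, Y \ τ 2], ?_, ?_, ?_, ?_, ?_, ?_⟩
  · intro k
    fin_cases k
    · exact hA
    · exact hB
    · exact hZ
  · intro k
    fin_cases k
    · exact oA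
    · exact oB
    · exact oY
  · intro k
    fin_cases k
    · exact hAA.mono_right sdiff_subset
    · exact hBB.mono_right sdiff_subset
    · exact hZY.mono_right sdiff_subset
  · intro k
    fin_cases k
    · exact uA
    · exact uB
    · exact uZ
  · intro k
    fin_cases k
    · exact hAcl (Or.inl he0)
    · exact hBcl (Or.inl he1)
    · exact hZcl (Or.inl he0)
  · intro k l hkl
    fin_cases k <;> fin_cases l
    · exact absurd rfl hkl
    · exact hAB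
    · exact hAZ
    · exact hAB.symm
    · exact absurd rfl hkl
    · exact hBZ
    · exact hAZ.symm
    · exact hBZ.symm
    · exact absurd rfl hkl

variable {S : Type*} [MetricSpace S]

theorem sectors (hM : Surf S) {e : S} {σ : Fin 3 → Set S} {p : Fin 3 → S}
    (hσ : ∀ i, IsArc (σ i) e (p i)) (hi : ∀ i j, i ≠ j → σ i ∩ σ j = {e}) {O : Set S}
    (hO : O ∈ 𝓝 e) :
    ∃ (D T : Set S) (A W : Fin 3 → Set S), IsOpen D ∧ e ∈ D ∧ D ⊆ O ∧ T ⊆ (⋃ i, σ i) ∧ e ∈ T ∧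
      (∀ k, IsOpen (A k)) ∧ (∀ k, IsOpen (W k)) ∧ (∀ k, Disjoint (A k) (W k)) ∧
      (∀ k, A k ∪ W k = D \ T) ∧ (∀ k, e ∈ closure (A k)) ∧
      ∀ k l, k ≠ l → Disjoint (A k) (A l) := by
  obtain ⟨D, τ, hD, heD, hDO, hτ, hc⟩ := star hM hσ hi hO
  obtain ⟨A, W, h1, h2, h3, h4, h5, h6⟩ := sectors_core (D := D) (e := e) (τ := τ)
    (fun i => ⟨(hτ i).2.1, (hτ i).2.2.1, (hτ i).2.2.2.1, (hτ i).2.2.2.2.1, (hτ i).2.2.2.2.2⟩)
    (fun i j hij x hx => by
      rw [← hi i j hij]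
      exact ⟨(hτ i).1 hx.1, (hτ j).1 hx.2⟩) hc
  refine ⟨D, τ 0 ∪ τ 1 ∪ τ 2, A, W, hD, heD, hDO, ?_, Or.inl (Or.inl (hτ 0).2.2.1),
    h1, h2, h3, h4, h5, h6⟩
  rintro x ((hx | hx) | hx)
  · exact mem_iUnion.mpr ⟨0, (hτ 0).1 hx⟩
  · exact mem_iUnion.mpr ⟨1, (hτ 1).1 hx⟩
  · exact mem_iUnion.mpr ⟨2, (hτ 2).1 hx⟩

end Pool.Agent.H29.CWA
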