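import Pool.Agent.H29.CW.Sides

/-!
# MP_c830f0_an, ARC-13: arcs with a common end point in a small disc (note 2967, A9, planar part)

Chart `g : ℂ → S` (`Surf`), `g 0 = e`, `range g ⊆ O ∩ {p i}ᶜ` for all `i` (finite).  `D = g '' ball 0 1`.  For each `i`: `σ i = α i '' [0,1]`, `Sides_exit`: `t i` = first exit time;
`τ i = α i '' Ico 0 (t i)`.  `D \ τ i = D \ α i '' Icc 0 (t i)` is open.  For `i ≠ j` the path `β s = α j s` (`s ≥ 0`), `α i (-s)` (`s ≤ 0`) on `[-t i, t j]` is continuous and injective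
(`σ i ∩ σ j = {e}`): `chart_crosscut` (`Pool/Agent/H29/CW/Sides.lean`); `β '' Ioo (-t i) (t j) = τ i ∪ τ j`.
`sectors`: `star` for `Fin 3`.  `D \ (τ 0 ∪ τ 1) = V ∪ V'` with `τ 2 \ {e} ⊆ V` (preconnected, swap names), `D \ (τ 0 ∪ τ 2) = A ∪ A'` with `V' ⊆ A'`, `D \ (τ 1 ∪ τ 2) = B ∪ B'` with `V' ⊆ B'`.
`τ 1 \ {e} ⊆ closure V' ⊆ closure A'`, `A ∩ closure A' = ∅` (open, disjoint), so `A ∩ τ 1 = ∅`; likewise `B ∩ τ 0 = ∅`.  If `A ∩ B ≠ ∅`: `A` preconnected in `B ∪ B'`, so `A ⊆ B`, and `B ⊆ A`; `A = B`;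
`τ 1 \ {e} ⊆ A ∪ A'`, so `⊆ A'`, but `τ 1 ⊆ closure B = closure A` and `A' ∩ closure A = ∅`: contradiction (`τ 1` nontrivial).  The sectors are `A`, `B`, `V'`, with the complements
`W = A' \ τ 1`, `B' \ τ 0`, `V \ τ 2` in `D \ T`, `T = τ 0 ∪ τ 1 ∪ τ 2`.
-/

set_option autoImplicit false

namespace Pool.Agent.H29.CWA

open Set Filter Topology Metric
open Pool.Agent.H61.PO (IsArc Surf)
open Pool.Agent.H29.CW

variable {S : Type*} [MetricSpace S]

/-- two arcs with a common end point, joined to one path -/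
theorem Star_join {α β : ℝ → S} {a b : ℝ} (ha : 0 < a) (hb : 0 < b)
    (hαc : ContinuousOn α (Icc 0 a)) (hβc : ContinuousOn β (Icc 0 b)) (hαi : InjOn α (Icc 0 a))
    (hβi : InjOn β (Icc 0 b)) (h0 : α 0 = β 0)
    (hd : ∀ s ∈ Icc 0 a, ∀ t ∈ Icc 0 b, α s = β t → s = 0) :
    ∃ γ : ℝ → S, ContinuousOn γ (Icc (-a) b) ∧ InjOn γ (Icc (-a) b) ∧ γ (-a) = α a ∧ γ b = β b ∧
      (∀ s, 0 ≤ s → γ s = β s) ∧ ∀ s, s ≤ 0 → γ s = α (-s) := by
  classical
  have hpos : ∀ s, 0 ≤ s → (if 0 ≤ s then β s else α (-s)) = β s := fun s hs => if_pos hs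
  have hneg : ∀ s, s ≤ 0 → (if 0 ≤ s then β s else α (-s)) = α (-s) := by
    intro s hs
    rcases hs.eq_or_lt with rfl | h
    · rw [if_pos le_rfl, neg_zero, h0]
    · rw [if_neg (not_le.2 h)]
  refine ⟨fun s => if 0 ≤ s then β s else α (-s), ?_, ?_, ?_, ?_, hpos, hneg⟩
  · have hun : Icc (-a) b = Icc (-a) 0 ∪ Icc 0 b :=
      (Icc_union_Icc_eq_Icc (by linarith) hb.le).symm
    rw [hun]
    refine ContinuousOn.union_of_isClosed ?_ ?_ isClosed_Icc isClosed_Icc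
    · have h1 : ContinuousOn (fun s => α (-s)) (Icc (-a) 0) := by
        refine hαc.comp continuous_neg.continuousOn ?_
        intro s hs
        exact ⟨by linarith [hs.2], by linarith [hs.1]⟩
      exact h1.congr fun s hs => hneg s hs.2
    · exact hβc.congr fun s hs => hpos s hs.1
  · intro s hs t ht hst
    simp only at hst
    rcases le_total 0 s with h1 | h1
    · rcases le_total 0 t with h2 | h2
      · rw [hpos s h1, hpos t h2] at hst
        exact hβi ⟨h1, hs.2⟩ ⟨h2, ht.2⟩ hst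
      · rw [hpos s h1, hneg t h2] at hst
        have h3 : -t = 0 := hd (-t) ⟨by linarith, by linarith [ht.1]⟩ s ⟨h1, hs.2⟩ hst.symm
        have h4 : t = 0 := by linarith
        subst h4
        rw [neg_zero, h0] at hst
        exact hβi ⟨h1, hs.2⟩ ⟨le_rfl, hb.le⟩ hst
    · rcases le_total 0 t with h2 | h2
      · rw [hneg s h1, hpos t h2] at hst
        have h3 : -s = 0 := hd (-s) ⟨by linarith, by linarith [hs.1]⟩ t ⟨h2, ht.2⟩ hst
        have h4 : s = 0 := by linarith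
        subst h4
        rw [neg_zero, h0] at hst
        exact hβi ⟨le_rfl, hb.le⟩ ⟨h2, ht.2⟩ hst
      · rw [hneg s h1, hneg t h2] at hst
        have h3 := hαi ⟨by linarith, by linarith [hs.1]⟩ ⟨by linarith, by linarith [ht.1]⟩ hst
        linarith
  · show (if (0 : ℝ) ≤ -a then β (-a) else α (- -a)) = α a
    rw [hneg (-a) (by linarith), neg_neg]
  · show (if (0 : ℝ) ≤ b then β b else α (-b)) = β b
    rw [hpos b hb.le]

theorem star (hM : Surf S) {ι : Type*} [Finite ι] {e : S} {σ : ι → Set S} {p : ι → S}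
    (hσ : ∀ i, IsArc (σ i) e (p i)) (hi : ∀ i j, i ≠ j → σ i ∩ σ j = {e}) {O : Set S}
    (hO : O ∈ 𝓝 e) :
    ∃ (D : Set S) (τ : ι → Set S), IsOpen D ∧ e ∈ D ∧ D ⊆ O ∧
      (∀ i, τ i ⊆ σ i ∧ τ i ⊆ D ∧ e ∈ τ i ∧ (τ i).Nontrivial ∧ IsPreconnected (τ i \ {e}) ∧
        IsOpen (D \ τ i)) ∧
      ∀ i j, i ≠ j → ∃ V W : Set S, IsOpen V ∧ IsOpen W ∧ IsPreconnected V ∧ IsPreconnected W ∧
        Disjoint V W ∧ V ∪ W = D \ (τ i ∪ τ j) ∧ τ i ∪ τ j ⊆ closure V ∧
          τ i ∪ τ j ⊆ closure W := by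
  choose α hc hinj hσ' h0 h1 using hσ
  have hpe : ∀ i, e ≠ p i := by
    intro i h
    have h2 : α i 0 = α i 1 := by rw [h0, h1, h]
    have h3 := hinj i ⟨le_rfl, zero_le_one⟩ ⟨zero_le_one, le_rfl⟩ h2
    exact zero_ne_one h3
  have hV : O ∩ (range p)ᶜ ∈ 𝓝 e := by
    refine inter_mem hO ?_
    have hcl : IsClosed (range p) := (finite_range p).isClosed
    refine hcl.isOpen_compl.mem_nhds ?_
    rintro ⟨i, hi'⟩
    exact hpe i hi'.symm
  obtain ⟨g, hg, hg0, hrange⟩ := hM e _ hV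
  have hex : ∀ i, ∃ t : ℝ, 0 < t ∧ t < 1 ∧ (∀ s : ℝ, 0 ≤ s → s < t → α i s ∈ g '' ball 0 1) ∧
      α i t ∈ g '' sphere 0 1 := fun i => Sides_exit zero_le_one (hc i) hg ((h0 i).trans hg0.symm)
        (fun h => (hrange h).2 ⟨i, (h1 i).symm⟩)
  choose t ht0 ht1 htin hts using hex
  have hsub : ∀ i, Icc 0 (t i) ⊆ Icc (0 : ℝ) 1 := fun i => Icc_subset_Icc le_rfl (ht1 i).le
  have hopen : IsOpen (g '' ball 0 1) := hg.isOpenMap _ isOpen_ball
  have hnot : ∀ x ∈ g '' sphere 0 1, x ∉ g '' ball 0 1 := by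
    rintro _ ⟨z, hz, rfl⟩ ⟨w, hw, hwz⟩
    rw [hg.injective hwz, mem_ball] at hw
    rw [mem_sphere] at hz
    exact absurd hz hw.ne
  refine ⟨g '' ball 0 1, fun i => α i '' Ico 0 (t i), hopen, ⟨0, mem_ball_self one_pos, hg0⟩, ?_,
    ?_, ?_⟩
  · rintro _ ⟨z, -, rfl⟩
    exact (hrange ⟨z, rfl⟩).1
  · intro i
    refine ⟨?_, ?_, ?_, ?_, ?_, ?_⟩
    · rw [hσ' i]
      exact image_mono (Ico_subset_Icc_self.trans (hsub i))
    · rintro _ ⟨s, hs, rfl⟩
      exact htin i s hs.1 hs.2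
    · exact ⟨0, ⟨le_rfl, ht0 i⟩, h0 i⟩
    · refine ⟨α i 0, ⟨0, ⟨le_rfl, ht0 i⟩, rfl⟩, α i (t i / 2),
        ⟨t i / 2, ⟨by linarith [ht0 i], by linarith [ht0 i]⟩, rfl⟩, ?_⟩
      intro h
      have h2 := hinj i ⟨le_rfl, zero_le_one⟩
        ⟨by linarith [ht0 i], by linarith [ht0 i, ht1 i]⟩ h
      linarith [ht0 i]
    · have h2 : α i '' Ico 0 (t i) \ {e} = α i '' Ioo 0 (t i) := by
        ext x
        constructor
        · rintro ⟨⟨s, hs, rfl⟩, hne⟩
          refine ⟨s, ⟨?_, hs.2⟩, rfl⟩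
          rcases hs.1.eq_or_lt with h | h
          · exfalso
            apply hne
            rw [← h]
            exact h0 i
          · exact h
        · rintro ⟨s, hs, rfl⟩
          refine ⟨⟨s, ⟨hs.1.le, hs.2⟩, rfl⟩, ?_⟩
          intro h
          have h3 : α i s = α i 0 := by rw [h0]; exact h
          have h4 := hinj i ⟨hs.1.le, hs.2.le.trans (ht1 i).le⟩ ⟨le_rfl, zero_le_one⟩ h3
          exact hs.1.ne' h4
      rw [h2]
      refine isPreconnected_Ioo.image _ ((hc i).mono ?_)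
      exact Ioo_subset_Icc_self.trans (hsub i)
    · have h2 : g '' ball 0 1 \ α i '' Ico 0 (t i) = g '' ball 0 1 \ α i '' Icc 0 (t i) := by
        ext x
        constructor
        · rintro ⟨hx1, hx2⟩
          refine ⟨hx1, ?_⟩
          rintro ⟨s, hs, rfl⟩
          rcases hs.2.eq_or_lt with h | h
          · rw [h] at hx1
            exact hnot _ (hts i) hx1
          · exact hx2 ⟨s, ⟨hs.1, h⟩, rfl⟩
        · rintro ⟨hx1, hx2⟩
          refine ⟨hx1, fun h => hx2 (image_mono Ico_subset_Icc_self h)⟩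
      rw [h2]
      have hcomp : IsCompact (α i '' Icc 0 (t i)) :=
        isCompact_Icc.image_of_continuousOn ((hc i).mono (hsub i))
      exact hopen.sdiff hcomp.isClosed
  · intro i j hij
    have hd : ∀ s ∈ Icc 0 (t i), ∀ r ∈ Icc 0 (t j), α i s = α j r → s = 0 := by
      intro s hs r hr hsr
      have h2 : α i s ∈ σ i ∩ σ j := by
        constructor
        · rw [hσ' i]
          exact ⟨s, hsub i hs, rfl⟩
        · rw [hσ' j, hsr]
          exact ⟨r, hsub j hr, rfl⟩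
      rw [hi i j hij] at h2
      have h3 : α i s = α i 0 := by rw [h0]; exact h2
      exact hinj i (hsub i hs) ⟨le_rfl, zero_le_one⟩ h3
    obtain ⟨γ, hγc, hγi, hγa, hγb, hγp, hγn⟩ := Star_join (ht0 i) (ht0 j)
      ((hc i).mono (hsub i)) ((hc j).mono (hsub j)) ((hinj i).mono (hsub i))
      ((hinj j).mono (hsub j)) ((h0 i).trans (h0 j).symm) hd
    obtain ⟨V, W, hVo, hWo, hVc, hWc, hVW, hun, hclV, hclW⟩ :=
      chart_crosscut hg (t1 := -t i) (t2 := t j) (by linarith [ht0 i, ht0 j]) hγc hγi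
        (by rw [hγa]; exact hts i) (by rw [hγb]; exact hts j) (by
          intro s hs
          rcases le_total 0 s with h | h
          · rw [hγp s h]
            exact htin j s h hs.2
          · rw [hγn s h]
            exact htin i (-s) (by linarith) (by linarith [hs.1]))
    have himg : γ '' Ioo (-t i) (t j) = α i '' Ico 0 (t i) ∪ α j '' Ico 0 (t j) := by
      ext x
      constructor
      · rintro ⟨s, hs, rfl⟩
        rcases le_total 0 s with h | h
        · right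
          rw [hγp s h]
          exact ⟨s, ⟨h, hs.2⟩, rfl⟩
        · left
          rw [hγn s h]
          exact ⟨-s, ⟨by linarith, by linarith [hs.1]⟩, rfl⟩
      · rintro (⟨s, hs, rfl⟩ | ⟨s, hs, rfl⟩)
        · refine ⟨-s, ⟨by linarith [hs.2], by linarith [hs.1, ht0 j]⟩, ?_⟩
          rw [hγn (-s) (by linarith [hs.1]), neg_neg]
        · exact ⟨s, ⟨by linarith [hs.1, ht0 i], hs.2⟩, hγp s hs.1⟩
    rw [himg] at hun hclV hclW
    exact ⟨V, W, hVo, hWo, hVc.isPreconnected, hWc.isPreconnected, hVW, hun, hclV, hclW⟩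

end Pool.Agent.H29.CWA
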