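import Pool.Agent.H29.CWA.Meet
import Pool.Agent.H29.CWA.Star

/-!
# MP_c830f0_an, ARC-16a: two unstable and three stable arcs (note 2967, A9)

`star` for the five arcs (`ι = Fin 2 ⊕ Fin 3`): `D \ (τ₁ ∪ τ₂) = X ∪ X'`; the three preconnected nonempty sets `τ (s i) \ {e}` are in `D \ (τ₁ ∪ τ₂)`, two of them on the same
side (pigeonhole), say in `X`; the side `X'` is preconnected and misses `τ (s i) ∪ τ (s j)`, so it is contained in one side `Q'` of `D \ (τ (s i) ∪ τ (s j)) = Q ∪ Q'`; `meet`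
(with `X'`, `Q`): `X' ∩ Q ≠ ∅`, contradiction.
-/

set_option autoImplicit false

namespace Pool.Agent.H29.CWA

open Set Filter Topology Metric
open Pool.Agent.H61.PO (IsArc Surf)
open Pool.Agent.H29.CW

variable {S : Type*} [MetricSpace S] [CompactSpace S] {f : S ≃ₜ S} {c : ℝ}

private theorem two_sides_key (H : Hyp0 f c) (hM : Surf S) [ConnectedSpace S] {e : S}
    {D Tu t1 t2 X X' : Set S} (hD : IsOpen D) (heD : e ∈ D) (hTu : Tu ⊆ Cu f (c / 8) e)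
    (heT : e ∈ Tu) (h1 : t1 ⊆ Cs f (c / 8) e) (h2 : t2 ⊆ Cs f (c / 8) e)
    (hX : IsOpen X) (hX' : IsOpen X') (hXX : Disjoint X X') (hXu : X ∪ X' = D \ Tu)
    (hpX' : IsPreconnected X') (heX' : e ∈ closure X')
    (ht1 : t1 \ {e} ⊆ X) (ht2 : t2 \ {e} ⊆ X) (het1 : e ∈ t1)
    (hcc : ∃ V W : Set S, IsOpen V ∧ IsOpen W ∧ IsPreconnected V ∧ IsPreconnected W ∧
        Disjoint V W ∧ V ∪ W = D \ (t1 ∪ t2) ∧ t1 ∪ t2 ⊆ closure V ∧
          t1 ∪ t2 ⊆ closure W) : False := by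
  obtain ⟨Q, Q', hQ, hQ', -, -, hQQ, hQu, hclQ, hclQ'⟩ := hcc
  have heX'' : e ∉ X' := by
    intro h
    have h3 : e ∈ D \ Tu := by rw [← hXu]; exact Or.inr h
    exact h3.2 heT
  have hmiss : ∀ t : Set S, t \ {e} ⊆ X → ∀ x ∈ X', x ∉ t := by
    intro t ht x hx hxt
    have hxe : x ≠ e := fun h => heX'' (h ▸ hx)
    exact Set.disjoint_left.mp hXX (ht ⟨hxt, hxe⟩) hx
  have hsub : X' ⊆ Q ∪ Q' := by
    intro x hx
    rw [hQu]
    have h3 : x ∈ D \ Tu := by rw [← hXu]; exact Or.inr hx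
    refine ⟨h3.1, ?_⟩
    rintro (h | h)
    · exact hmiss t1 ht1 x hx h
    · exact hmiss t2 ht2 x hx h
  have hTs : t1 ∪ t2 ⊆ Cs f (c / 8) e := union_subset h1 h2
  have hXu' : X' ∪ X = D \ Tu := by rw [union_comm]; exact hXu
  rcases (isPreconnected_iff_subset_of_disjoint.mp hpX') Q Q' hQ hQ' hsub
    (by rw [hQQ.inter_eq, inter_empty]) with h | h
  · have hQu' : Q' ∪ Q = D \ (t1 ∪ t2) := by rw [union_comm]; exact hQu
    obtain ⟨y, hy1, hy2⟩ := meet H hM hD heD hTu hTs hX' hX hXX.symm hXu' hQ' hQ hQQ.symm hQu'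
      heX' (hclQ' (Or.inl het1))
    exact Set.disjoint_left.mp hQQ (h hy1) hy2
  · obtain ⟨y, hy1, hy2⟩ := meet H hM hD heD hTu hTs hX' hX hXX.symm hXu' hQ hQ' hQQ hQu
      heX' (hclQ (Or.inl het1))
    exact Set.disjoint_left.mp hQQ hy2 (h hy1)

theorem two_sides (H : Hyp0 f c) (hM : Surf S) [ConnectedSpace S] {e : S} {σ : Fin 2 → Set S}
    {p : Fin 2 → S} {s : Fin 3 → Set S} {q : Fin 3 → S} (hσ : ∀ i, IsArc (σ i) e (p i))
    (hs : ∀ i, IsArc (s i) e (q i)) (hσu : ∀ i, σ i ⊆ Cu f (c / 8) e)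
    (hss : ∀ i, s i ⊆ Cs f (c / 8) e) (h1 : σ 0 ∩ σ 1 = {e})
    (h2 : ∀ i j, i ≠ j → s i ∩ s j = {e}) (h3 : ∀ i j, σ i ∩ s j = {e}) : False := by
  have hσ' : ∀ i : Fin 2 ⊕ Fin 3, IsArc ((Sum.elim σ s) i) e ((Sum.elim p q) i) := by
    rintro (i | i)
    · exact hσ i
    · exact hs i
  have hi' : ∀ i j : Fin 2 ⊕ Fin 3, i ≠ j →
      (Sum.elim σ s) i ∩ (Sum.elim σ s) j = {e} := by
    rintro (i | i) (j | j) hij
    · show σ i ∩ σ j = {e}
      have hij' : i ≠ j := fun h => hij (by rw [h])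
      fin_cases i <;> fin_cases j
      · exact absurd rfl hij'
      · exact h1
      · rw [inter_comm]; exact h1
      · exact absurd rfl hij'
    · exact h3 i j
    · show s i ∩ σ j = {e}
      rw [inter_comm]; exact h3 j i
    · exact h2 i j fun h => hij (by rw [h])
  obtain ⟨D, τ, hD, heD, -, hτ, hcc⟩ := star hM hσ' hi' (O := univ) univ_mem
  obtain ⟨X, X', hX, hX', hpX, hpX', hXX, hXu, hclX, hclX'⟩ :=
    hcc (Sum.inl 0) (Sum.inl 1) (by decide)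
  have hu : ∀ i : Fin 2, τ (Sum.inl i) ⊆ Cu f (c / 8) e := fun i => (hτ (Sum.inl i)).1.trans (hσu i)
  have hss' : ∀ i : Fin 3, τ (Sum.inr i) ⊆ Cs f (c / 8) e := fun i =>
    (hτ (Sum.inr i)).1.trans (hss i)
  have hTu : τ (Sum.inl 0) ∪ τ (Sum.inl 1) ⊆ Cu f (c / 8) e := union_subset (hu 0) (hu 1)
  have he0 : e ∈ τ (Sum.inl 0) ∪ τ (Sum.inl 1) := Or.inl (hτ (Sum.inl 0)).2.2.1
  have hside : ∀ k : Fin 3, τ (Sum.inr k) \ {e} ⊆ X ∨ τ (Sum.inr k) \ {e} ⊆ X' := by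
    intro k
    have hk := hτ (Sum.inr k)
    refine (isPreconnected_iff_subset_of_disjoint.mp hk.2.2.2.2.1) X X' hX hX' ?_
      (by rw [hXX.inter_eq, inter_empty])
    rintro x ⟨hx, hxe⟩
    rw [hXu]
    refine ⟨hk.2.1 hx, ?_⟩
    rintro (h | h)
    · have h4 : x ∈ σ 0 ∩ s k := ⟨(hτ (Sum.inl 0)).1 h, hk.1 hx⟩
      rw [h3 0 k] at h4
      exact hxe h4
    · have h4 : x ∈ σ 1 ∩ s k := ⟨(hτ (Sum.inl 1)).1 h, hk.1 hx⟩
      rw [h3 1 k] at h4
      exact hxe h4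
  have hX'u : X' ∪ X = D \ (τ (Sum.inl 0) ∪ τ (Sum.inl 1)) := by rw [union_comm]; exact hXu
  have keyX : ∀ i j : Fin 3, i ≠ j → τ (Sum.inr i) \ {e} ⊆ X → τ (Sum.inr j) \ {e} ⊆ X →
      False := fun i j hij hi hj =>
    two_sides_key H hM hD heD hTu he0 (hss' i) (hss' j) hX hX' hXX hXu hpX' (hclX' he0) hi hj
      (hτ (Sum.inr i)).2.2.1 (hcc (Sum.inr i) (Sum.inr j) (fun h => hij (Sum.inr_injective h)))
  have keyX' : ∀ i j : Fin 3, i ≠ j → τ (Sum.inr i) \ {e} ⊆ X' → τ (Sum.inr j) \ {e} ⊆ X' →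
      False := fun i j hij hi hj =>
    two_sides_key H hM hD heD hTu he0 (hss' i) (hss' j) hX' hX hXX.symm hX'u hpX (hclX he0) hi hj
      (hτ (Sum.inr i)).2.2.1 (hcc (Sum.inr i) (Sum.inr j) (fun h => hij (Sum.inr_injective h)))
  rcases hside 0 with a | a <;> rcases hside 1 with b | b <;> rcases hside 2 with d | d
  · exact keyX 0 1 (by decide) a b
  · exact keyX 0 1 (by decide) a b
  · exact keyX 0 2 (by decide) a d
  · exact keyX' 1 2 (by decide) b d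
  · exact keyX 1 2 (by decide) b d
  · exact keyX' 0 2 (by decide) a d
  · exact keyX' 0 1 (by decide) a b
  · exact keyX' 0 1 (by decide) a b

end Pool.Agent.H29.CWA
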