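import Pool.Agent.H29.CWA.Local
import Pool.Agent.H29.CWA.TwoSides
import Pool.Agent.H29.CWA.Sect
import Pool.Agent.H29.CWA.ArcOf

/-!
# MP_c830f0_an, ARC-16: no triods (note 2967, A9)

`no_triod`: `c₂` of `den_cu H.symm` (so `Den (Cs f a x)` for `a ≤ c₂`), scale `c/8`.  `sectors` for the triod with `O = univ`: `D, T, A, W`.  `κ ≤ c₂`, `κ ≤ c/8`, `Cs f κ e ∩ Cu f c e = {e}` (`isolated0`), `ball e (2 κ) ⊆ D`.
`cross0`: `w k ∈ Cs f κ e ∩ A k`.  `s k = Iv (Cs f κ e) e (w k)`, an arc (`Iv_arc`); `s k \ {e}` is preconnected, contained in `D \ T`, meets `A k`, so `⊆ A k`.  So the `s k` meet only in `e`, and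
`s k ∩ σ i ⊆ Cs f κ e ∩ Cu f c e = {e}`: `two_sides`.
-/

set_option autoImplicit false

namespace Pool.Agent.H29.CWA

open Set Filter Topology Metric
open Pool.Agent.H61.PO (IsArc Surf)
open Pool.Agent.H29.CW

variable {S : Type*} [MetricSpace S] [CompactSpace S] {f : S ≃ₜ S} {c : ℝ}

private theorem arc_sdiff_preconn {σ : Set S} {p q : S} (h : IsArc σ p q) :
    IsPreconnected (σ \ {p}) := by
  obtain ⟨α, hα, hi, rfl, h0, h1⟩ := h
  have he : α '' Icc 0 1 \ {p} = α '' Ioc 0 1 := by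
    ext x
    constructor
    · rintro ⟨⟨t, ht, rfl⟩, hx⟩
      refine ⟨t, ⟨lt_of_le_of_ne ht.1 ?_, ht.2⟩, rfl⟩
      rintro rfl
      exact hx h0
    · rintro ⟨t, ht, rfl⟩
      refine ⟨⟨t, ⟨ht.1.le, ht.2⟩, rfl⟩, fun hx => ?_⟩
      rw [mem_singleton_iff, ← h0] at hx
      exact ht.1.ne' (hi ⟨ht.1.le, ht.2⟩ ⟨le_rfl, zero_le_one⟩ hx)
  rw [he]
  exact isPreconnected_Ioc.image α (hα.mono Ioc_subset_Icc_self)

theorem no_triod (H : Hyp0 f c) (hM : Surf S) [ConnectedSpace S] (e : S) :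
    ¬ Triod (Cu f (c / 8) e) e := by
  rintro ⟨σ, p, hσ, hσK, hσσ⟩
  have hc := H.pos
  obtain ⟨c₂, hc2, hc2c, hden⟩ := den_cu H.symm hM
  obtain ⟨D, T, A, W, hD, heD, -, hT, heT, hA, hW, hAW, hAu, heA, hAA⟩ :=
    sectors hM hσ hσσ (O := univ) univ_mem
  obtain ⟨κ₀, hκ₀, hκ₀c, hiso⟩ := isolated0 H e
  obtain ⟨r, hr, hrD⟩ := Metric.isOpen_iff.mp hD e heD
  obtain ⟨κ, hκ, h1, h2, h3, h4⟩ :
      ∃ κ : ℝ, 0 < κ ∧ κ ≤ κ₀ ∧ κ ≤ c₂ ∧ κ ≤ c / 8 ∧ κ ≤ r / 2 :=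
    ⟨min (min κ₀ c₂) (min (c / 8) (r / 2)),
      lt_min (lt_min hκ₀ hc2) (lt_min (by linarith) (by linarith)),
      (min_le_left _ _).trans (min_le_left _ _), (min_le_left _ _).trans (min_le_right _ _),
      (min_le_right _ _).trans (min_le_left _ _), (min_le_right _ _).trans (min_le_right _ _)⟩
  have hKden : Den (Cs f κ e) := hden κ hκ h2 e
  have hTu : T ⊆ Cu f (c / 8) e := hT.trans (iUnion_subset hσK)
  have h8 : Cu f (c / 8) e ⊆ Cu f c e := Cs_mono (f := f.symm) (by linarith) (by linarith)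
  have hw : ∀ k, (Cs f κ e ∩ A k).Nonempty := fun k =>
    cross0 H hM hD heD hTu (hA k) (hW k) (hAW k) (hAu k) (heA k) hκ
  choose w hw using hw
  have hwK : ∀ k, w k ∈ Cs f κ e := fun k => (hw k).1
  have hwA : ∀ k, w k ∈ A k := fun k => (hw k).2
  have heA' : ∀ k, e ∉ A k := by
    intro k h
    have h5 : e ∈ D \ T := by rw [← hAu k]; exact Or.inl h
    exact h5.2 heT
  have hew : ∀ k, e ≠ w k := fun k h => heA' k (h ▸ hwA k)
  have heK : e ∈ Cs f κ e := mem_Cs_self hκ.le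
  have harc : ∀ k, IsArc (Iv (Cs f κ e) e (w k)) e (w k) := fun k =>
    Iv_arc hKden heK (hwK k) (hew k)
  have hsK : ∀ k, Iv (Cs f κ e) e (w k) ⊆ Cs f κ e := fun k => Iv_sub hKden heK (hwK k)
  have hone : ∀ x, x ∈ Cs f κ e → x ∈ Cu f c e → x = e := by
    intro x hx hx'
    have h5 : x ∈ Cs f κ e ∩ Cu f c e := ⟨hx, hx'⟩
    rw [hiso κ hκ h1] at h5
    exact h5
  have hsA : ∀ k, Iv (Cs f κ e) e (w k) \ {e} ⊆ A k := by
    intro k
    have hsub : Iv (Cs f κ e) e (w k) \ {e} ⊆ A k ∪ W k := by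
      rintro x ⟨hx, hxe⟩
      rw [hAu k]
      refine ⟨hrD ?_, fun hxT => hxe (hone x (hsK k hx) (h8 (hTu hxT)))⟩
      have h5 : dist x e ≤ κ := Cs_dist (hsK k hx)
      rw [mem_ball]
      linarith
    exact IsPreconnected.subset_left_of_subset_union (hA k) (hW k) (hAW k) hsub
      ⟨w k, ⟨right_mem_Iv, fun h => hew k (mem_singleton_iff.mp h).symm⟩, hwA k⟩
      (arc_sdiff_preconn (harc k))
  refine two_sides H hM (σ := fun i : Fin 2 => σ i.castSucc) (p := fun i : Fin 2 => p i.castSucc)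
    (s := fun k => Iv (Cs f κ e) e (w k)) (q := w) (fun i => hσ _) harc (fun i => hσK _)
    (fun k => (hsK k).trans (Cs_mono hκ.le h3)) (hσσ _ _ (by decide)) ?_ ?_
  · intro i j hij
    ext x
    constructor
    · rintro ⟨hx, hx'⟩
      by_contra hxe
      exact Set.disjoint_left.mp (hAA i j hij) (hsA i ⟨hx, hxe⟩) (hsA j ⟨hx', hxe⟩)
    · rintro rfl
      exact ⟨left_mem_Iv, left_mem_Iv⟩
  · intro i j
    ext x
    constructor
    · rintro ⟨hx, hx'⟩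
      exact hone x (hsK j hx') (h8 (hσK _ hx))
    · rintro rfl
      have h5 := (hσ i.castSucc).mem.1
      exact ⟨h5, left_mem_Iv⟩

end Pool.Agent.H29.CWA
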