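import Pool.Agent.H29.CWA.DegAll
import Pool.Agent.H29.CWA.DegNear

/-!
# MP_c830f0_an, ARC-8: all local continua are nondegenerate (note 2967, A2)
-/

set_option autoImplicit false

namespace Pool.Agent.H29.CWA

open Set Filter Topology Metric
open Pool.Agent.H61.PO (IsArc Surf)
open Pool.Agent.H29.CW

variable {S : Type*} [MetricSpace S] [CompactSpace S] {f : S ≃ₜ S} {c : ℝ}

theorem nondeg' (H : Hyp0 f c) (hM : Surf S) [ConnectedSpace S] {a : ℝ} (ha : 0 < a) (z : S) :
    (Cs f a z).Nontrivial := by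
  have hc := H.pos
  obtain ⟨r, hr, hnear⟩ := deg_near' H
  set D : Set S := {z : S | Cs f (c / 8) z ⊆ {z}} with hD
  have hopen : IsOpen D := by
    rw [Metric.isOpen_iff]
    exact fun z hz => ⟨r, hr, fun y hy => hnear z hz y hy⟩
  have hclosed : IsClosed D := by
    rw [← isOpen_compl_iff, Metric.isOpen_iff]
    refine fun z hz => ⟨r, hr, fun y hy hyD => hz ?_⟩
    exact hnear y hyD z (by rw [dist_comm]; exact hy)
  have hDe : D = ∅ := by
    rcases isClopen_iff.1 ⟨hclosed, hopen⟩ with h | h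
    · exact h
    · exact absurd (fun z => (h ▸ mem_univ z : z ∈ D)) (deg_all H hM)
  by_contra hcon
  rw [Set.not_nontrivial_iff] at hcon
  have h1 : Cs f a z ⊆ {z} := fun w hw => hcon hw (mem_Cs_self ha.le)
  have h2 : z ∈ D := deg_up' H (by linarith) (by linarith) ha h1
  rw [hDe] at h2
  exact h2

theorem no_open0 (H : Hyp0 f c) (hM : Surf S) [ConnectedSpace S] {W : Set S} (hW : IsOpen W)
    (hn : W.Nonempty) (h : ∀ k : ℕ, ∀ u ∈ W, ∀ v ∈ W,
      dist ((⇑f.symm)^[k] u) ((⇑f.symm)^[k] v) ≤ c) : False := by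
  have hc := H.pos
  obtain ⟨w, hw⟩ := hn
  obtain ⟨r, hr, hball⟩ := Metric.isOpen_iff.1 hW w hw
  have ha : 0 < min (c / 2) (r / 2) := lt_min (by linarith) (by linarith)
  have ha1 : min (c / 2) (r / 2) ≤ c / 2 := min_le_left _ _
  have ha2 : min (c / 2) (r / 2) ≤ r / 2 := min_le_right _ _
  have hsub : Cs f (min (c / 2) (r / 2)) w ⊆ W := fun u hu => by
    refine hball ?_
    rw [mem_ball]
    have := Cs_dist hu
    linarith
  refine (nondeg' H hM ha w).not_subsingleton (exp_small0 H Cs_preconn (fun k u hu v hv => ?_)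
    fun k u hu v hv => h k u (hsub hu) v (hsub hv))
  have := Ws_dist_two (Cs_sub_Ws hu) (Cs_sub_Ws hv) k
  linarith

theorem no_open' (H : Hyp0 f c) (hM : Surf S) [ConnectedSpace S] {W : Set S} (hW : IsOpen W)
    (hn : W.Nonempty) : ¬ ∀ w ∈ W, W ⊆ Wu f (c / 4) w := by
  intro h
  have hc := H.pos
  refine no_open0 H hM hW hn fun k u hu v hv => ?_
  have := h v hv hu k
  linarith

theorem int_empty' (H : Hyp0 f c) (hM : Surf S) [ConnectedSpace S] (e : S) :
    interior (Cu f (c / 2) e) = ∅ := by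
  by_contra hne
  rw [← ne_eq, ← nonempty_iff_ne_empty] at hne
  refine no_open0 H hM isOpen_interior hne fun k u hu v hv => ?_
  have := Ws_dist_two (f := f.symm) (Cs_sub_Ws (f := f.symm) (interior_subset hu))
    (Cs_sub_Ws (f := f.symm) (interior_subset hv)) k
  linarith

end Pool.Agent.H29.CWA
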