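import Pool.Agent.H29.CWA.Cut

/-!
# MP_c830f0_an, ARC-3: the function `φ` (note 2967, A7)

`Gs K a g x = sSup (g '' Iv K a x)`.  `Gs_cont`: for `g : X → ℝ` continuous (phiBumps are `1`-Lipschitz, that is enough) `Gs K a g` is continuous on `K`: `LC`:
`Iv K a y ⊆ Iv K a x ∪ N`, all points of `N` within `ε` of `x`, so for `g` `1`-Lipschitz `|Gs x - Gs y| ≤ 2 ε`.
`exists_phi`: `K` is a compact metric space, so separable: `q : ℕ → X` with `K ⊆ closure (range q)` (if `K` is nonempty);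
`g (n,m) y = max 0 (1/(m+1) - dist (q n) y)`, values in `[0,1]`; `φ x = ∑' k, (1/2)^k * Gs K a (g k) x` over `k : ℕ` (`Nat.unpair`) or `ℕ × ℕ` via `Encodable`;
`continuousOn_tsum`.  If `x ∈ Iv K a y`, `x ≠ y`: `Iv K a x ⊆ Iv K a y` gives `≤` for all terms; `y ∉ Iv K a x` (`Iv_cut`), which is closed: some phiBump is `0` on
`Iv K a x` and positive at `y`: strict (`Summable.tsum_lt_tsum`).
-/

set_option autoImplicit false

namespace Pool.Agent.H29.CWA

open Set Filter Topology Metric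
open Pool.Agent.H61.PO (IsArc Surf)

variable {X : Type*} [MetricSpace X] {K : Set X} {a : X}

/-- supremum of `g` over `Iv K a x` -/
noncomputable def Gs (K : Set X) (a : X) (g : X → ℝ) (x : X) : ℝ := sSup (g '' Iv K a x)

theorem Gs_bdd {g : X → ℝ} (hg : ∀ z, g z ≤ 1) (x : X) : BddAbove (g '' Iv K a x) := by
  refine ⟨1, ?_⟩
  rintro _ ⟨z, _, rfl⟩
  exact hg z

theorem le_Gs {g : X → ℝ} (hg : ∀ z, g z ≤ 1) {x z : X} (hz : z ∈ Iv K a x) :
    g z ≤ Gs K a g x :=
  le_csSup (Gs_bdd hg x) (mem_image_of_mem g hz)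

theorem Gs_le {g : X → ℝ} {x : X} {t : ℝ} (h : ∀ z ∈ Iv K a x, g z ≤ t) : Gs K a g x ≤ t := by
  refine csSup_le ⟨g a, mem_image_of_mem g left_mem_Iv⟩ ?_
  rintro _ ⟨z, hz, rfl⟩
  exact h z hz

theorem Gs_cont (hK : Den K) (ha : a ∈ K) {g : X → ℝ} (hg : ∀ z, g z ≤ 1)
    (hL : ∀ z w, |g z - g w| ≤ dist z w) : ContinuousOn (Gs K a g) K := by
  rw [Metric.continuousOn_iff]
  intro x hx ε hε
  obtain ⟨δ, hδ, h⟩ := hK.lc x hx (ε / 4) (by linarith)
  refine ⟨δ, hδ, fun y hy hd => ?_⟩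
  obtain ⟨N, hNK, hNc, hxN, hyN, hN⟩ := h y hy hd
  have hN1 : ∀ z ∈ N, g z ≤ g x + ε / 4 := by
    intro z hz
    have h1 := (abs_le.1 (hL z x)).2
    have h2 := hN z hz
    linarith
  have hyx : g x ≤ g y + ε / 4 := by
    have h1 := (abs_le.1 (hL y x)).1
    have h2 := hN y hyN
    linarith
  have h1 : Gs K a g y ≤ Gs K a g x + ε / 4 := by
    refine Gs_le fun z hz => ?_
    rcases Iv_tri hK ha hy hx hz with h' | h'
    · have := le_Gs hg h'
      linarith
    · have h2 := hN1 z (Iv_min hNK hNc hxN hyN h')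
      have h3 : g x ≤ Gs K a g x := le_Gs hg right_mem_Iv
      linarith
  have h2 : Gs K a g x ≤ Gs K a g y + ε / 2 := by
    refine Gs_le fun z hz => ?_
    rcases Iv_tri hK ha hx hy hz with h' | h'
    · have := le_Gs hg h'
      linarith
    · have h2 := hN1 z (Iv_min hNK hNc hyN hxN h')
      have h3 : g y ≤ Gs K a g y := le_Gs hg right_mem_Iv
      linarith
  rw [Real.dist_eq, abs_lt]
  constructor <;> linarith

/-- the phiBump with centre `q` and radius `r` -/
def phiBump (q : X) (r : ℝ) (y : X) : ℝ := max 0 (r - dist q y)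

theorem phiBump_nonneg (q : X) (r : ℝ) (y : X) : 0 ≤ phiBump q r y := le_max_left _ _

theorem phiBump_le (q : X) {r : ℝ} (hr : r ≤ 1) (y : X) : phiBump q r y ≤ 1 :=
  max_le zero_le_one (by linarith [dist_nonneg (x := q) (y := y)])

theorem phiBump_lip (q : X) (r : ℝ) (z w : X) : |phiBump q r z - phiBump q r w| ≤ dist z w := by
  have h1 : |phiBump q r z - phiBump q r w| ≤ |(r - dist q z) - (r - dist q w)| := by
    have := abs_max_sub_max_le_abs (r - dist q z) (r - dist q w) 0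
    unfold phiBump
    rwa [max_comm 0, max_comm 0]
  have h2 : |(r - dist q z) - (r - dist q w)| ≤ dist z w := by
    rw [abs_le]
    have h3 := dist_triangle q z w
    have h4 := dist_triangle q w z
    rw [dist_comm w z] at h4
    constructor <;> linarith
  exact h1.trans h2

theorem exists_phi (hK : Den K) (ha : a ∈ K) : ∃ φ : X → ℝ, ContinuousOn φ K ∧
    ∀ x ∈ K, ∀ y ∈ K, x ∈ Iv K a y → x ≠ y → φ x < φ y := by
  obtain ⟨c, hc, hKc⟩ := hK.compact.isSeparable
  have hcne : c.Nonempty := by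
    by_contra h
    rw [not_nonempty_iff_eq_empty] at h
    rw [h, closure_empty] at hKc
    exact hKc ha
  obtain ⟨q, hq⟩ := hc.exists_eq_range hcne
  set r : ℕ → ℝ := fun m => 1 / ((m : ℝ) + 1) with hr
  have hr0 : ∀ m, 0 < r m := fun m => by rw [hr]; positivity
  have hr1 : ∀ m, r m ≤ 1 := fun m => by
    rw [hr]
    have : (1 : ℝ) ≤ (m : ℝ) + 1 := by linarith [Nat.cast_nonneg (α := ℝ) m]
    exact (div_le_one (by linarith)).2 this
  set g : ℕ → X → ℝ := fun k => phiBump (q k.unpair.1) (r k.unpair.2) with hg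
  have hg1 : ∀ k z, g k z ≤ 1 := fun k z => phiBump_le _ (hr1 _) z
  have hg0 : ∀ k z, 0 ≤ g k z := fun k z => phiBump_nonneg _ _ z
  have hG0 : ∀ k x, 0 ≤ Gs K a (g k) x := fun k x =>
    (hg0 k a).trans (le_Gs (hg1 k) left_mem_Iv)
  have hG1 : ∀ k x, Gs K a (g k) x ≤ 1 := fun k x => Gs_le fun z _ => hg1 k z
  set F : ℕ → X → ℝ := fun k x => (1 / 2 : ℝ) ^ k * Gs K a (g k) x with hF
  have hFb : ∀ k x, ‖F k x‖ ≤ (1 / 2 : ℝ) ^ k := by
    intro k x
    have h0 : (0 : ℝ) < (1 / 2 : ℝ) ^ k := by positivity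
    rw [Real.norm_eq_abs, abs_of_nonneg (mul_nonneg h0.le (hG0 k x))]
    exact mul_le_of_le_one_right h0.le (hG1 k x)
  have hsum : Summable fun k : ℕ => (1 / 2 : ℝ) ^ k := summable_geometric_two
  have hFs : ∀ x, Summable fun k => F k x := fun x =>
    Summable.of_norm_bounded hsum (fun k => hFb k x)
  refine ⟨fun x => ∑' k, F k x, ?_, ?_⟩
  · refine continuousOn_tsum (fun k => ?_) hsum (fun k x _ => hFb k x)
    exact continuousOn_const.mul (Gs_cont hK ha (hg1 k) (phiBump_lip _ _))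
  · intro x hx y hy hxy hne
    have hyx : y ∉ Iv K a x := Iv_cut hK ha hy hxy hne
    obtain ⟨ε, hε, hball⟩ := Metric.isOpen_iff.1 (Iv_closed (K := K) (a := a) (x := x)).isOpen_compl
      y hyx
    obtain ⟨m, hm⟩ := exists_nat_one_div_lt (half_pos hε)
    obtain ⟨w, hw, hwd⟩ := Metric.mem_closure_iff.1 (hKc hy) (r m) (hr0 m)
    rw [hq] at hw
    obtain ⟨n, rfl⟩ := hw
    rw [dist_comm] at hwd
    have hle : (fun k => F k x) ≤ fun k => F k y := by
      intro k
      have h0 : (0 : ℝ) < (1 / 2 : ℝ) ^ k := by positivity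
      refine mul_le_mul_of_nonneg_left ?_ h0.le
      exact Gs_le fun z hz => le_Gs (hg1 k) (Iv_mono hK ha hy hxy hz)
    have hlt : F (Nat.pair n m) x < F (Nat.pair n m) y := by
      have h0 : (0 : ℝ) < (1 / 2 : ℝ) ^ (Nat.pair n m) := by positivity
      refine mul_lt_mul_of_pos_left ?_ h0
      have hgk : g (Nat.pair n m) = phiBump (q n) (r m) := by
        rw [hg]
        simp [Nat.unpair_pair]
      have h1 : Gs K a (g (Nat.pair n m)) x ≤ 0 := by
        refine Gs_le fun z hz => ?_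
        rw [hgk]
        refine max_le le_rfl ?_
        have hz1 : z ∉ Metric.ball y ε := fun hcon => hball hcon hz
        rw [Metric.mem_ball, not_lt] at hz1
        have h3 := dist_triangle z (q n) y
        rw [dist_comm z (q n)] at h3
        have h4 : r m < ε / 2 := hm
        linarith
      have h2 : 0 < g (Nat.pair n m) y := by
        rw [hgk]
        exact lt_max_of_lt_right (by linarith)
      exact h1.trans_lt (h2.trans_le (le_Gs (hg1 _) right_mem_Iv))
    exact Summable.tsum_lt_tsum hle hlt (hFs x) (hFs y)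

end Pool.Agent.H29.CWA
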